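import Mathlib
import Pool.Agent.H425R3.MM.K3

/-! Duality and kernel sums for well-spaced real points. -/

set_option autoImplicit false

open Finset
open Pool.Agent.H469R2.NK
open Pool.Agent.H425R3.MM

namespace Pool.Agent.NH14.SM

/-- the duality principle -/
lemma dualR (S : Finset ℝ) (T : Finset ℕ) (b : ℕ → ℂ) (θ : ℕ → ℝ) {v A K : ℝ} (hv0 : 0 ≤ v) (hK0 : 0 ≤ K)
    (hv : ∀ t ∈ S, v ≤ ‖∑ m ∈ T, b m * e (t * θ m)‖) (hA : ∑ m ∈ T, ‖b m‖^2 ≤ A)
    (hK : ∀ t ∈ S, ∑ t' ∈ S, ‖∑ m ∈ T, e ((t - t') * θ m)‖ ≤ K) :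
    (S.card : ℝ) * v^2 ≤ A * K := by
  have hA0 : 0 ≤ A := le_trans (sum_nonneg (fun _ _ => by positivity)) hA
  rcases S.eq_empty_or_nonempty with rfl | hS
  · simp only [card_empty, Nat.cast_zero, zero_mul]; positivity
  have hS0 : (0:ℝ) < S.card := by exact_mod_cast hS.card_pos
  set B : ℝ → ℂ := fun n => ∑ m ∈ T, b m * e (n * θ m) with hB
  set ε : ℝ → ℂ := fun n => if B n = 0 then 0 else (starRingEnd ℂ) (B n) / ‖B n‖ with hε
  have hε1 : ∀ n, ‖ε n‖ ≤ 1 := by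
    intro n
    simp only [hε]
    split_ifs with h
    · simp
    · rw [norm_div, Complex.norm_conj, Complex.norm_real, Real.norm_eq_abs, abs_norm]
      have : ‖B n‖ ≠ 0 := by rwa [norm_ne_zero_iff]
      rw [div_self this]
  have hεB : ∀ n, ε n * B n = ((‖B n‖ : ℝ) : ℂ) := by
    intro n
    simp only [hε]
    split_ifs with h
    · rw [h]; simp
    · have h1 : ((‖B n‖ : ℝ) : ℂ) ≠ 0 := by
        rw [Complex.ofReal_ne_zero]; rwa [norm_ne_zero_iff]
      rw [div_mul_eq_mul_div, div_eq_iff h1, mul_comm, Complex.mul_conj']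
      ring
  set G : ℕ → ℂ := fun m => ∑ n ∈ S, ε n * e (n * θ m) with hG
  have h1 : (∑ n ∈ S, ‖B n‖) = ‖∑ m ∈ T, b m * G m‖ := by
    have e1 : ∑ m ∈ T, b m * G m = ((∑ n ∈ S, ‖B n‖ : ℝ) : ℂ) := by
      simp only [hG]
      rw [Complex.ofReal_sum]
      calc ∑ m ∈ T, b m * ∑ n ∈ S, ε n * e (n * θ m) = ∑ m ∈ T, ∑ n ∈ S, ε n * (b m * e (n * θ m)) := by
            apply sum_congr rfl; intro m _; rw [mul_sum]; apply sum_congr rfl; intro n _; ring
        _ = ∑ n ∈ S, ε n * B n := by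
            rw [sum_comm]; apply sum_congr rfl; intro n _; simp only [hB]; rw [mul_sum]
        _ = _ := sum_congr rfl (fun n _ => hεB n)
    rw [e1, Complex.norm_real, Real.norm_of_nonneg (by positivity)]
  have h2 : (S.card : ℝ) * v ≤ ∑ n ∈ S, ‖B n‖ := by
    rw [← nsmul_eq_mul]
    exact card_nsmul_le_sum _ _ _ hv
  have h3 : ‖∑ m ∈ T, b m * G m‖^2 ≤ A * ∑ m ∈ T, ‖G m‖^2 := by
    have g1 : ‖∑ m ∈ T, b m * G m‖ ≤ ∑ m ∈ T, ‖b m‖ * ‖G m‖ := by
      refine (norm_sum_le _ _).trans (le_of_eq ?_)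
      apply sum_congr rfl; intro m _; rw [norm_mul]
    calc ‖∑ m ∈ T, b m * G m‖^2 ≤ (∑ m ∈ T, ‖b m‖ * ‖G m‖)^2 := pow_le_pow_left₀ (norm_nonneg _) g1 2
      _ ≤ (∑ m ∈ T, ‖b m‖^2) * ∑ m ∈ T, ‖G m‖^2 := sum_mul_sq_le_sq_mul_sq _ _ _
      _ ≤ _ := mul_le_mul_of_nonneg_right hA (sum_nonneg (fun _ _ => by positivity))
  have h4 : ∑ m ∈ T, ‖G m‖^2 ≤ S.card * K := by
    have g1 : ((∑ m ∈ T, ‖G m‖^2 : ℝ) : ℂ) = ∑ n ∈ S, ∑ n' ∈ S, ε n * (starRingEnd ℂ) (ε n') *
        ∑ m ∈ T, e ((n - n') * θ m) := by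
      push_cast
      have g2 : ∀ m ∈ T, ((‖G m‖:ℂ))^2 = ∑ n ∈ S, ∑ n' ∈ S, ε n * (starRingEnd ℂ) (ε n') * e ((n - n') * θ m) := by
        intro m _
        rw [← Complex.mul_conj']
        simp only [hG]
        rw [map_sum, sum_mul_sum]
        apply sum_congr rfl; intro n _
        apply sum_congr rfl; intro n' _
        rw [map_mul, conj_e]
        have : e ((n - n') * θ m) = e (n * θ m) * e (-(n' * θ m)) := by
          rw [← e_add]; congr 1; ring
        rw [this]; ring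
      rw [sum_congr rfl g2, sum_comm]
      apply sum_congr rfl; intro n _
      rw [sum_comm]
      apply sum_congr rfl; intro n' _
      rw [mul_sum]
    have g3 : (∑ m ∈ T, ‖G m‖^2 : ℝ) = ‖((∑ m ∈ T, ‖G m‖^2 : ℝ) : ℂ)‖ := by
      rw [Complex.norm_real, Real.norm_of_nonneg (sum_nonneg (fun _ _ => by positivity))]
    rw [g3, g1]
    calc ‖∑ n ∈ S, ∑ n' ∈ S, ε n * (starRingEnd ℂ) (ε n') * ∑ m ∈ T, e ((n - n') * θ m)‖
        ≤ ∑ n ∈ S, ∑ n' ∈ S, ‖∑ m ∈ T, e ((n - n') * θ m)‖ := by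
          refine (norm_sum_le _ _).trans (sum_le_sum fun n _ => ?_)
          refine (norm_sum_le _ _).trans (sum_le_sum fun n' _ => ?_)
          rw [norm_mul, norm_mul, Complex.norm_conj]
          calc ‖ε n‖ * ‖ε n'‖ * ‖∑ m ∈ T, e ((n - n') * θ m)‖ ≤ 1 * 1 * ‖∑ m ∈ T, e ((n - n') * θ m)‖ := by
                gcongr
                · exact hε1 n
                · exact hε1 n'
            _ = _ := by ring
      _ ≤ ∑ n ∈ S, K := sum_le_sum hK
      _ = _ := by rw [sum_const, nsmul_eq_mul]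
  have h5 : ((S.card : ℝ) * v)^2 ≤ A * (S.card * K) := by
    calc ((S.card : ℝ) * v)^2 ≤ (∑ n ∈ S, ‖B n‖)^2 := pow_le_pow_left₀ (by positivity) h2 2
      _ ≤ A * ∑ m ∈ T, ‖G m‖^2 := by rw [h1]; exact h3
      _ ≤ _ := mul_le_mul_of_nonneg_left h4 hA0
  have h6 : (S.card : ℝ) * (S.card * v^2) ≤ S.card * (A * K) := by
    calc (S.card : ℝ) * (S.card * v^2) = ((S.card : ℝ) * v)^2 := by ring
      _ ≤ _ := h5
      _ = _ := by ring
  exact le_of_mul_le_mul_left h6 hS0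

/-- separated sets -/
def Sep (δ : ℝ) (S : Finset ℝ) : Prop := ∀ x ∈ S, ∀ y ∈ S, x ≠ y → δ ≤ |x - y|

lemma Sep.subset {δ : ℝ} {S S' : Finset ℝ} (h : Sep δ S) (hs : S' ⊆ S) : Sep δ S' :=
  fun x hx y hy hxy => h x (hs hx) y (hs hy) hxy

open Classical in
/-- near terms -/
lemma near_sum {S : Finset ℝ} {δ s t : ℝ} (hδ : 0 < δ) (hsep : Sep δ S) (ht : t ∈ S) (hs : δ ≤ s) :
    ∑ t' ∈ (S.erase t).filter (fun t' => |t - t'| ≤ s), 1 / |t - t'| ≤ 2 / δ * (1 + Real.log (2 * s / δ)) := by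
  set A := (S.erase t).filter (fun t' => |t - t'| ≤ s) with hA
  set f : ℝ → Bool × ℕ := fun t' => (decide (t < t'), ⌊|t - t'| / δ⌋₊) with hf
  set L : ℕ := ⌊s / δ⌋₊ + 1 with hL
  have hmem : ∀ x ∈ A, δ ≤ |t - x| ∧ |t - x| ≤ s ∧ x ∈ S ∧ x ≠ t := by
    intro x hx
    rw [hA, mem_filter, mem_erase] at hx
    exact ⟨hsep t ht x hx.1.2 (Ne.symm hx.1.1), hx.2, hx.1.2, hx.1.1⟩
  have hinj : Set.InjOn f A := by
    intro x hx y hy hxy
    by_contra hne
    obtain ⟨x1, x2, x3, x4⟩ := hmem x hx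
    obtain ⟨y1, y2, y3, y4⟩ := hmem y hy
    have h1 := hsep x x3 y y3 hne
    simp only [hf, Prod.mk.injEq] at hxy
    obtain ⟨g1, g2⟩ := hxy
    have g3 : |t - x| / δ < |t - y| / δ + 1 := by
      have a1 := Nat.lt_floor_add_one (|t - x| / δ)
      have a2 := Nat.floor_le (show 0 ≤ |t - y| / δ by positivity)
      rw [g2] at a1
      linarith
    have g4 : |t - y| / δ < |t - x| / δ + 1 := by
      have a1 := Nat.lt_floor_add_one (|t - y| / δ)
      have a2 := Nat.floor_le (show 0 ≤ |t - x| / δ by positivity)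
      rw [← g2] at a1
      linarith
    have g5 : |t - x| < |t - y| + δ := by
      have : |t - x| / δ < (|t - y| + δ) / δ := by rw [add_div, div_self hδ.ne']; exact g3
      exact (div_lt_div_iff_of_pos_right hδ).mp this
    have g6 : |t - y| < |t - x| + δ := by
      have : |t - y| / δ < (|t - x| + δ) / δ := by rw [add_div, div_self hδ.ne']; exact g4
      exact (div_lt_div_iff_of_pos_right hδ).mp this
    have g7 : (t < x ↔ t < y) := by
      have := congrArg (fun b => b = true) g1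
      simpa using this
    rcases lt_or_gt_of_ne x4 with hx' | hx'
    · have hy' : y < t := by
        rcases lt_or_gt_of_ne y4 with h | h
        · exact h
        · have := g7.mpr h; linarith
      rw [abs_of_pos (by linarith : 0 < t - x)] at g5 g6
      rw [abs_of_pos (by linarith : 0 < t - y)] at g5 g6
      have : |x - y| < δ := by rw [abs_lt]; constructor <;> linarith
      linarith
    · have hy' : t < y := g7.mp hx'
      rw [abs_of_neg (by linarith : t - x < 0)] at g5 g6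
      rw [abs_of_neg (by linarith : t - y < 0)] at g5 g6
      have : |x - y| < δ := by rw [abs_lt]; constructor <;> linarith
      linarith
  have hfl : ∀ x ∈ A, 1 ≤ ⌊|t - x| / δ⌋₊ := by
    intro x hx
    rw [Nat.one_le_floor_iff, le_div_iff₀ hδ, one_mul]
    exact (hmem x hx).1
  have hsub : A.image f ⊆ (univ : Finset Bool) ×ˢ (Ico 1 (L + 1)) := by
    intro y hy
    rw [mem_image] at hy
    obtain ⟨x, hx, rfl⟩ := hy
    rw [mem_product, mem_Ico]
    refine ⟨mem_univ _, hfl x hx, ?_⟩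
    simp only [hf]
    have : ⌊|t - x| / δ⌋₊ ≤ ⌊s / δ⌋₊ := by
      apply Nat.floor_le_floor
      gcongr
      exact (hmem x hx).2.1
    omega
  have h1 : ∑ t' ∈ A, 1 / |t - t'| ≤ ∑ t' ∈ A, 1 / (δ * ((f t').2 : ℝ)) := by
    apply sum_le_sum
    intro x hx
    have h2 := hfl x hx
    have h3 : (1:ℝ) ≤ (⌊|t - x| / δ⌋₊ : ℝ) := by exact_mod_cast h2
    apply one_div_le_one_div_of_le
    · simp only [hf]; positivity
    · simp only [hf]
      have := Nat.floor_le (show 0 ≤ |t - x| / δ by positivity)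
      rw [le_div_iff₀ hδ] at this
      linarith
  refine h1.trans ?_
  have h2 : ∑ t' ∈ A, 1 / (δ * ((f t').2 : ℝ)) = ∑ y ∈ A.image f, 1 / (δ * (y.2 : ℝ)) := by
    rw [sum_image hinj]
  rw [h2]
  refine (sum_le_sum_of_subset_of_nonneg hsub (fun y _ _ => by positivity)).trans ?_
  rw [sum_product, Fintype.sum_bool]
  have h3 : ∑ x ∈ Ico 1 (L + 1), 1 / (δ * (x:ℝ)) = 1 / δ * ∑ x ∈ Ico 1 (L + 1), (1:ℝ) / x := by
    rw [mul_sum]
    apply sum_congr rfl
    intro x _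
    rw [one_div_mul_one_div]
  simp only
  rw [h3]
  have h4 : ∑ x ∈ Ico 1 (L + 1), (1:ℝ) / x ≤ 1 + Real.log (2 * s / δ) := by
    have hsδ : 1 ≤ s / δ := by rw [le_div_iff₀ hδ]; linarith
    have hL1 : (L:ℝ) ≤ 2 * s / δ := by
      rw [hL]; push_cast
      have := Nat.floor_le (show 0 ≤ s / δ by positivity)
      have e1 : 2 * s / δ = s / δ + s / δ := by ring
      linarith
    have hL0 : 1 ≤ L := by rw [hL]; omega
    have e2 : ∑ x ∈ Ico 1 (L + 1), (1:ℝ) / x ≤ 1 + Real.log L := by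
      have h5 : ∑ x ∈ Ico 1 (L + 1), (1:ℝ) / x = ((harmonic L : ℚ) : ℝ) := by
        rw [harmonic_eq_sum_Icc]
        push_cast
        apply sum_congr
        · ext x; simp only [mem_Ico, mem_Icc]; omega
        · intro x _; rw [one_div]
      rw [h5]
      exact harmonic_le_one_add_log L
    have e3 : Real.log L ≤ Real.log (2 * s / δ) := by
      apply Real.log_le_log _ hL1
      exact_mod_cast hL0
    linarith
  calc 1 / δ * ∑ x ∈ Ico 1 (L + 1), (1:ℝ) / x + 1 / δ * ∑ x ∈ Ico 1 (L + 1), (1:ℝ) / x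
      ≤ 1 / δ * (1 + Real.log (2 * s / δ)) + 1 / δ * (1 + Real.log (2 * s / δ)) := by gcongr
    _ = _ := by ring

/-- the sum of the kernel over a separated set in a window -/
lemma kerR (j : ℕ) {S : Finset ℝ} {x H δ : ℝ} (hδ : 0 < δ) (hδ1 : δ ≤ 1) (hsep : Sep δ S)
    (hS : ∀ t ∈ S, x ≤ t ∧ t ≤ x + H) {t : ℝ} (ht : t ∈ S) :
    ∑ t' ∈ S, ‖∑ m ∈ blk j, e ((t - t') * √(m:ℝ))‖ ≤
      3 * (4:ℝ)^j + 8 * √((4^j + 1 : ℕ) : ℝ) * (2 / δ * (1 + Real.log (2 * √((4^j + 1 : ℕ) : ℝ) / δ))) +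
      S.card * (23 * √(H * √((4^j + 1 : ℕ) : ℝ) * (1 + Real.log ((4^j + 1 : ℕ) : ℝ)))) := by
  classical
  set M : ℕ := 4^j + 1 with hM
  have hM1 : 1 ≤ M := by rw [hM]; exact Nat.le_add_left _ _
  have hM1' : (1:ℝ) ≤ M := by exact_mod_cast hM1
  have hlog : 0 ≤ Real.log M := Real.log_nonneg hM1'
  set s := √(M:ℝ) with hs
  have hs1 : 1 ≤ s := by rw [hs, Real.one_le_sqrt]; exact hM1'
  have hker : ∀ t : ℝ, 0 < t → ‖∑ m ∈ blk j, e (t * √(m:ℝ))‖ ≤
      (if t ≤ s then 8 * s / t else 0) + 23 * √(t * s * (1 + Real.log M)) := by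
    intro t ht
    rw [blk_sum]
    exact ker ht hM1 (3 * 4^j) (by omega)
  set W := 23 * √(H * s * (1 + Real.log M)) with hW
  have hW0 : 0 ≤ W := by positivity
  have hterm : ∀ t' ∈ S.erase t, ‖∑ m ∈ blk j, e ((t - t') * √(m:ℝ))‖ ≤
      (if |t - t'| ≤ s then 8 * s * (1 / |t - t'|) else 0) + W := by
    intro t' ht'
    rw [mem_erase] at ht'
    have h1 := hS t ht
    have h2 := hS t' ht'.2
    have hd0 : 0 < |t - t'| := abs_pos.mpr (sub_ne_zero.mpr (Ne.symm ht'.1))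
    have hd2 : |t - t'| ≤ H := by rw [abs_le]; constructor <;> linarith
    have e1 : ‖∑ m ∈ blk j, e ((t - t') * √(m:ℝ))‖ = ‖∑ m ∈ blk j, e (|t - t'| * √(m:ℝ))‖ := by
      rcases abs_cases (t - t') with ⟨h5, _⟩ | ⟨h5, _⟩
      · rw [h5]
      · rw [h5, blk_neg]
    rw [e1]
    refine (hker _ hd0).trans (add_le_add ?_ ?_)
    · split_ifs with h5
      · exact le_of_eq (by ring)
      · exact le_rfl
    · apply mul_le_mul_of_nonneg_left _ (by norm_num)
      apply Real.sqrt_le_sqrt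
      apply mul_le_mul_of_nonneg_right _ (by linarith)
      exact mul_le_mul_of_nonneg_right hd2 (by linarith)
  have hdiag : ‖∑ m ∈ blk j, e ((t - t) * √(m:ℝ))‖ ≤ 3 * (4:ℝ)^j := by
    refine (norm_sum_le _ _).trans ?_
    simp only [norm_e, sum_const, blk, Nat.card_Ioc, nsmul_eq_mul, mul_one]
    have : 4^(j+1) - 4^j = 3 * 4^j := by rw [pow_succ]; omega
    rw [this]; push_cast; exact le_rfl
  rw [← add_sum_erase _ _ ht]
  have hE : ((S.erase t).card : ℝ) ≤ S.card := by exact_mod_cast card_erase_le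
  have hrest : ∑ t' ∈ S.erase t, ‖∑ m ∈ blk j, e ((t - t') * √(m:ℝ))‖ ≤
      8 * s * (2 / δ * (1 + Real.log (2 * s / δ))) + S.card * W := by
    calc _ ≤ ∑ t' ∈ S.erase t, ((if |t - t'| ≤ s then 8 * s * (1 / |t - t'|) else 0) + W) := sum_le_sum hterm
      _ = 8 * s * ∑ t' ∈ (S.erase t).filter (fun t' => |t - t'| ≤ s), 1 / |t - t'| + (S.erase t).card * W := by
          rw [sum_add_distrib, ← sum_filter, sum_const, nsmul_eq_mul, mul_sum]
      _ ≤ _ := by
          apply add_le_add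
          · apply mul_le_mul_of_nonneg_left _ (by positivity)
            exact near_sum hδ hsep ht (by linarith)
          · exact mul_le_mul_of_nonneg_right hE hW0
  linarith

end Pool.Agent.NH14.SM
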