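import Mathlib
import Pool.Agent.NH14.SM.S1

/-! Large values of the block sums at well-spaced points. -/

set_option autoImplicit false

open Finset
open Pool.Agent.H469R2.NK
open Pool.Agent.H425R3.MM

namespace Pool.Agent.NH14.SM

/-- the block sum -/
noncomputable def Fb (b : ℕ → ℂ) (j : ℕ) (t : ℝ) : ℂ := ∑ m ∈ blk j, b m * e (t * √(m:ℝ))

lemma log_Z_le {κ Z y : ℝ} (hκ : 0 < κ) (hZ : 1 ≤ Z) (hy : 0 < y) (hyZ : y ≤ 16 * Z ^ 2) :
    1 + Real.log y ≤ (4 + 2/κ) * Z ^ κ := by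
  have h1 : Real.log y ≤ Real.log 16 + 2 * Real.log Z := by
    calc Real.log y ≤ Real.log (16 * Z ^ 2) := Real.log_le_log hy hyZ
      _ = _ := by rw [Real.log_mul (by norm_num) (by positivity), Real.log_pow]; norm_num
  have h2 : Real.log 16 ≤ 3 := by
    have : Real.log 16 = 4 * Real.log 2 := by
      rw [show (16:ℝ) = 2 ^ 4 by norm_num, Real.log_pow]; norm_num
    have := Real.log_two_lt_d9
    linarith
  have h3 := Real.log_le_rpow_div (show (0:ℝ) ≤ Z by linarith) hκ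
  have h4 : 1 ≤ Z ^ κ := Real.one_le_rpow hZ hκ.le
  have h5 : (4 + 2/κ) * Z ^ κ = 4 * Z ^ κ + 2 * (Z ^ κ / κ) := by ring
  rw [h5]
  linarith

/-- one window -/
theorem winR {κ C1 : ℝ} (hκ : 0 < κ) (hκ1 : κ ≤ 1) (hC1 : 0 < C1) : ∃ D : ℝ, 0 < D ∧
    ∀ (j : ℕ) (b : ℕ → ℂ) (g v δ Z x H : ℝ) (S : Finset ℝ), 0 < v → 0 ≤ g → g ≤ 1 → 1 ≤ Z → 1 / Z ≤ δ → δ ≤ 1 →
    (2:ℝ)^j ≤ 2 * Z → 0 ≤ H → (∀ m ∈ blk j, ‖b m‖ ≤ C1 * g * ((2:ℝ)^j) ^ (-(3/2) + κ)) → Sep δ S →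
    (∀ t ∈ S, x ≤ t ∧ t ≤ x + H) → (∀ t ∈ S, v ≤ ‖Fb b j t‖) →
    (S.card : ℝ) * v^2 ≤ D * (Z ^ κ) ^ 4 * (g^2 * ((2:ℝ)^j + 1 / δ) + S.card * √(H / (2:ℝ)^j)) := by
  set c2 : ℝ := 23 * √(2 * (2 + 2/κ)) with hc2
  have hc20 : 0 ≤ c2 := by positivity
  set c3 : ℝ := 32 * (4 + 2/κ) with hc3
  have hc30 : 0 < c3 := by positivity
  set D : ℝ := 3 * C1^2 * (3 + c3 + c2) * 8 + 1 with hD
  have hD0 : 0 < D := by positivity
  refine ⟨D, hD0, ?_⟩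
  intro j b g v δ Z x H S hv hg0 hg1 hZ hδZ hδ1 hjZ hH hb hsep hS hvS
  set Q : ℝ := (2:ℝ)^j with hQ
  have hQ1 : 1 ≤ Q := one_le_pow₀ (by norm_num)
  have hQ0 : 0 < Q := by linarith
  have hZ0 : 0 < Z := by linarith
  have hδ0 : 0 < δ := lt_of_lt_of_le (by positivity) hδZ
  have h4Q : (4:ℝ)^j = Q^2 := four_eq j
  set L := Z ^ κ with hL
  have hL1 : 1 ≤ L := Real.one_le_rpow hZ hκ.le
  have hQκ : Q ^ κ ≤ 2 * L := by
    calc Q ^ κ ≤ (2 * Z) ^ κ := Real.rpow_le_rpow hQ0.le hjZ hκ.le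
      _ = 2 ^ κ * L := by rw [Real.mul_rpow (by norm_num) hZ0.le]
      _ ≤ 2 * L := by
          apply mul_le_mul_of_nonneg_right _ (by linarith)
          calc (2:ℝ) ^ κ ≤ 2 ^ (1:ℝ) := Real.rpow_le_rpow_of_exponent_le (by norm_num) hκ1
            _ = 2 := Real.rpow_one 2
  have hQκ0 : 0 < Q ^ κ := by positivity
  have hQ2κ : Q ^ (2 * κ) ≤ 4 * L ^ 2 := by
    have : Q ^ (2 * κ) = (Q ^ κ) ^ 2 := by
      rw [← Real.rpow_natCast, ← Real.rpow_mul hQ0.le]; congr 1; push_cast; ring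
    rw [this]
    calc (Q ^ κ) ^ 2 ≤ (2 * L) ^ 2 := pow_le_pow_left₀ hQκ0.le hQκ 2
      _ = _ := by ring
  have hQhalf : Q ^ (κ / 2) ≤ 2 * L := by
    calc Q ^ (κ / 2) ≤ Q ^ κ := Real.rpow_le_rpow_of_exponent_le hQ1 (by linarith)
      _ ≤ 2 * L := hQκ
  -- the l² norm
  have hl2 : ∑ m ∈ blk j, ‖b m‖^2 ≤ 3 * C1^2 * g^2 * Q ^ (-1 + 2 * κ) := by
    calc ∑ m ∈ blk j, ‖b m‖^2 ≤ ∑ m ∈ blk j, (C1 * g * Q ^ (-(3/2) + κ))^2 :=
          sum_le_sum (fun m hm => pow_le_pow_left₀ (norm_nonneg _) (hb m hm) 2)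
      _ = 3 * Q^2 * (C1 * g * Q ^ (-(3/2) + κ))^2 := by rw [sum_const, nsmul_eq_mul, blk_card, h4Q]
      _ = 3 * C1^2 * g^2 * (Q^2 * (Q ^ (-(3/2) + κ))^2) := by ring
      _ = _ := by
          congr 1
          rw [← Real.rpow_natCast Q 2, ← Real.rpow_natCast (Q ^ (-(3/2) + κ)) 2, ← Real.rpow_mul hQ0.le, ← Real.rpow_add hQ0]
          congr 1; push_cast; ring
  have hsM : √(((4^j + 1 : ℕ)) : ℝ) ≤ 2 * Q := by
    rw [Real.sqrt_le_left (by positivity)]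
    push_cast
    rw [h4Q]
    nlinarith
  have hsM0 : 0 < √(((4^j + 1 : ℕ)) : ℝ) := Real.sqrt_pos.mpr (by positivity)
  have hnear : 8 * √((4^j + 1 : ℕ) : ℝ) * (2 / δ * (1 + Real.log (2 * √((4^j + 1 : ℕ) : ℝ) / δ))) ≤ c3 * (Q / δ) * L := by
    have h1 : 1 + Real.log (2 * √((4^j + 1 : ℕ) : ℝ) / δ) ≤ (4 + 2/κ) * L := by
      apply log_Z_le hκ hZ (by positivity)
      rw [div_le_iff₀ hδ0]
      have h2 : 1 ≤ Z * δ := by
        rw [div_le_iff₀ hZ0] at hδZ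
        linarith
      calc 2 * √((4^j + 1 : ℕ) : ℝ) ≤ 2 * (2 * (2 * Z)) := by linarith
        _ = 8 * Z * 1 := by ring
        _ ≤ 8 * Z * (Z * δ) := by gcongr
        _ ≤ 16 * Z ^ 2 * δ := by nlinarith [mul_pos (mul_pos hZ0 hZ0) hδ0]
    have h0 : 0 ≤ (4 + 2/κ) * L := by positivity
    have h2 : 8 * √((4^j + 1 : ℕ) : ℝ) * (2 / δ * (1 + Real.log (2 * √((4^j + 1 : ℕ) : ℝ) / δ))) ≤
        8 * √((4^j + 1 : ℕ) : ℝ) * (2 / δ * ((4 + 2/κ) * L)) :=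
      mul_le_mul_of_nonneg_left (mul_le_mul_of_nonneg_left h1 (by positivity)) (by positivity)
    refine h2.trans ?_
    calc _ ≤ 8 * (2 * Q) * (2 / δ * ((4 + 2/κ) * L)) := by gcongr
      _ = _ := by rw [hc3]; ring
  have hW : 23 * √(H * √((4^j + 1 : ℕ) : ℝ) * (1 + Real.log ((4^j + 1 : ℕ) : ℝ))) ≤ c2 * (√(H / Q) * Q * Q ^ (κ/2)) := by
    have hlog0 : 0 ≤ 1 + Real.log ((4^j + 1 : ℕ) : ℝ) := by
      have : (1:ℝ) ≤ ((4^j + 1 : ℕ) : ℝ) := by push_cast; have := pow_pos (show (0:ℝ) < 4 by norm_num) j; linarith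
      have := Real.log_nonneg this
      linarith
    have h1 : H * √((4^j + 1 : ℕ) : ℝ) * (1 + Real.log ((4^j + 1 : ℕ) : ℝ)) ≤ (2 * (2 + 2/κ)) * ((H / Q) * (Q * Q ^ (κ/2)) ^ 2) := by
      have e1 : (Q ^ (κ/2)) ^ 2 = Q ^ κ := by
        rw [← Real.rpow_natCast, ← Real.rpow_mul hQ0.le]; congr 1; push_cast; ring
      calc _ ≤ H * (2 * Q) * ((2 + 2/κ) * Q ^ κ) := by
            apply mul_le_mul _ (log_M_le hκ j) hlog0 (by positivity)
            exact mul_le_mul_of_nonneg_left hsM (by positivity)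
        _ = (2 * (2 + 2/κ)) * ((H / Q) * (Q ^ 2 * Q ^ κ)) := by field_simp
        _ = _ := by rw [mul_pow, e1]
    have h2 : √(H * √((4^j + 1 : ℕ) : ℝ) * (1 + Real.log ((4^j + 1 : ℕ) : ℝ))) ≤ √(2 * (2 + 2/κ)) * (√(H / Q) * (Q * Q ^ (κ/2))) := by
      refine (Real.sqrt_le_sqrt h1).trans (le_of_eq ?_)
      rw [Real.sqrt_mul (show 0 ≤ 2 * (2 + 2/κ) by positivity), Real.sqrt_mul (show (0:ℝ) ≤ H / Q by positivity),
        Real.sqrt_sq (by positivity)]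
    calc _ ≤ 23 * (√(2 * (2 + 2/κ)) * (√(H / Q) * (Q * Q ^ (κ/2)))) := mul_le_mul_of_nonneg_left h2 (by norm_num)
      _ = _ := by rw [hc2]; ring
  have hK : ∀ t ∈ S, ∑ t' ∈ S, ‖∑ m ∈ blk j, e ((t - t') * √(m:ℝ))‖ ≤
      3 * Q^2 + c3 * (Q / δ) * L + S.card * (c2 * (√(H / Q) * Q * Q ^ (κ/2))) := by
    intro t ht
    refine (kerR j hδ0 hδ1 hsep hS ht).trans ?_
    rw [h4Q]
    apply add_le_add (add_le_add le_rfl hnear)
    exact mul_le_mul_of_nonneg_left hW (Nat.cast_nonneg _)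
  have h1 := dualR S (blk j) b (fun m => √(m:ℝ)) hv.le (by positivity) hvS hl2 hK
  refine h1.trans ?_
  have e2 : Q ^ (-1 + 2 * κ) = Q ^ (2 * κ) / Q := by
    rw [Real.rpow_add hQ0, Real.rpow_neg_one]; ring
  rw [e2]
  have hsd : 0 ≤ √(H / Q) := Real.sqrt_nonneg _
  have hcard : (0:ℝ) ≤ S.card := Nat.cast_nonneg _
  have hg2 : g^2 ≤ 1 := by nlinarith
  have hg20 : 0 ≤ g^2 := sq_nonneg g
  have e3 : 3 * C1^2 * g^2 * (Q ^ (2 * κ) / Q) * (3 * Q^2 + c3 * (Q / δ) * L + S.card * (c2 * (√(H / Q) * Q * Q ^ (κ/2)))) =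
      3 * C1^2 * Q ^ (2 * κ) * (g^2 * (3 * Q + c3 * (1 / δ) * L) + c2 * (g^2 * (S.card * √(H / Q) * Q ^ (κ/2)))) := by
    field_simp
  rw [e3]
  have hL4 : ∀ n : ℕ, 1 ≤ L ^ n := fun n => one_le_pow₀ hL1
  have i1 : g^2 * (3 * Q + c3 * (1 / δ) * L) ≤ (3 + c3) * L * (g^2 * (Q + 1 / δ)) := by
    have k1 : 3 * Q + c3 * (1 / δ) * L ≤ (3 + c3) * L * (Q + 1 / δ) := by
      have : 0 < 1 / δ := by positivity
      have a1 : 1 * Q ≤ L * Q := mul_le_mul_of_nonneg_right hL1 hQ0.le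
      have a2 : 0 ≤ L * (1 / δ) := by positivity
      have a3 : 0 ≤ c3 * L * Q := by positivity
      have a4 : (3 + c3) * L * (Q + 1 / δ) = 3 * (L * Q) + 3 * (L * (1 / δ)) + c3 * L * Q + c3 * (1 / δ) * L := by ring
      rw [a4]
      linarith
    calc _ ≤ g^2 * ((3 + c3) * L * (Q + 1 / δ)) := mul_le_mul_of_nonneg_left k1 hg20
      _ = _ := by ring
  have i2 : c2 * (g^2 * (S.card * √(H / Q) * Q ^ (κ/2))) ≤ c2 * (2 * L * (S.card * √(H / Q))) := by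
    apply mul_le_mul_of_nonneg_left _ hc20
    calc g^2 * (S.card * √(H / Q) * Q ^ (κ/2)) ≤ 1 * (S.card * √(H / Q) * (2 * L)) := by gcongr
      _ = _ := by ring
  set P1 := g^2 * (Q + 1 / δ) with hP1
  set P2 := (S.card : ℝ) * √(H / Q) with hP2
  have hP10 : 0 ≤ P1 := by positivity
  have hP20 : 0 ≤ P2 := by positivity
  calc 3 * C1^2 * Q ^ (2 * κ) * (g^2 * (3 * Q + c3 * (1 / δ) * L) + c2 * (g^2 * (S.card * √(H / Q) * Q ^ (κ/2))))
      ≤ 3 * C1^2 * (4 * L^2) * ((3 + c3) * L * P1 + c2 * (2 * L * P2)) := by gcongr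
    _ = (3 * C1^2 * (3 + c3) * 4) * L^3 * P1 + (3 * C1^2 * c2 * 8) * L^3 * P2 := by ring
    _ ≤ D * L^4 * P1 + D * L^4 * P2 := by
        have j0 : D = 24 * (C1^2 * (3 + c3)) + 24 * (C1^2 * c2) + 1 := by rw [hD]; ring
        have j5 : 0 ≤ C1^2 * c2 := by positivity
        have j6 : 0 ≤ C1^2 * (3 + c3) := by positivity
        have j1 : 3 * C1^2 * (3 + c3) * 4 ≤ D := by
          have : 3 * C1^2 * (3 + c3) * 4 = 12 * (C1^2 * (3 + c3)) := by ring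
          rw [this]; linarith
        have j2 : 3 * C1^2 * c2 * 8 ≤ D := by
          have : 3 * C1^2 * c2 * 8 = 24 * (C1^2 * c2) := by ring
          rw [this]; linarith
        have j3 : L^3 ≤ L^4 := pow_le_pow_right₀ hL1 (by norm_num)
        apply add_le_add
        · gcongr
        · gcongr
    _ = _ := by ring

/-- large values of a block -/
theorem lvR {κ C1 : ℝ} (hκ : 0 < κ) (hκ1 : κ ≤ 1) (hC1 : 0 < C1) : ∃ D : ℝ, 0 < D ∧
    ∀ (j : ℕ) (b : ℕ → ℂ) (v δ d Z x H : ℝ) (S : Finset ℝ), 0 < v → 0 < d → 1 ≤ Z → 1 / Z ≤ δ → δ ≤ 1 →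
    (2:ℝ)^j ≤ 2 * Z → 0 ≤ H →
    (∀ m ∈ blk j, ‖b m‖ ≤ C1 * min 1 ((d * (2:ℝ)^j) ^ (-(3/2):ℝ)) * ((2:ℝ)^j) ^ (-(3/2) + κ)) → Sep δ S →
    (∀ t ∈ S, x ≤ t ∧ t ≤ x + H) → (∀ t ∈ S, v ≤ ‖Fb b j t‖) →
    (S.card : ℝ) ≤ D * (Z ^ κ) ^ 14 * (H / v^6 + H / (v^8 * δ) + 1 / (v^2 * d) + 1 / (v^2 * δ)) := by
  classical
  obtain ⟨D, hD, hwin⟩ := winR hκ hκ1 hC1
  refine ⟨8 * D^3 * (1 + 36 * C1^2) + 2 * D, by positivity, ?_⟩
  intro j b v δ d Z x H S hv hd hZ hδZ hδ1 hjZ hH hb hsep hS hvS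
  set Q : ℝ := (2:ℝ)^j with hQ
  have hQ1 : 1 ≤ Q := one_le_pow₀ (by norm_num)
  have hQ0 : 0 < Q := by linarith
  have hZ0 : 0 < Z := by linarith
  have hδ0 : 0 < δ := lt_of_lt_of_le (by positivity) hδZ
  set L := Z ^ κ with hL
  have hL1 : 1 ≤ L := Real.one_le_rpow hZ hκ.le
  have hL0 : 0 < L := by linarith
  set g : ℝ := min 1 ((d * Q) ^ (-(3/2):ℝ)) with hg
  have hg0 : 0 < g := by positivity
  have hg1 : g ≤ 1 := min_le_left _ _
  have hg2 : g^2 ≤ 1 := by nlinarith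
  rcases S.eq_empty_or_nonempty with rfl | ⟨t0, ht0⟩
  · rw [card_empty, Nat.cast_zero]; positivity
  -- lower bound for Q
  have h4Q : (4:ℝ)^j = Q^2 := four_eq j
  have hQκ : Q ^ κ ≤ 2 * L := by
    calc Q ^ κ ≤ (2 * Z) ^ κ := Real.rpow_le_rpow hQ0.le hjZ hκ.le
      _ = 2 ^ κ * L := by rw [Real.mul_rpow (by norm_num) hZ0.le]
      _ ≤ 2 * L := by
          apply mul_le_mul_of_nonneg_right _ (by linarith)
          calc (2:ℝ) ^ κ ≤ 2 ^ (1:ℝ) := Real.rpow_le_rpow_of_exponent_le (by norm_num) hκ1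
            _ = 2 := Real.rpow_one 2
  have hvQ : v^2 ≤ 36 * C1^2 * L^2 * Q := by
    have h1 : v ≤ 3 * C1 * (Q ^ (1/2:ℝ) * Q ^ κ) := by
      refine (hvS t0 ht0).trans ?_
      unfold Fb
      refine (norm_sum_le _ _).trans ?_
      calc ∑ m ∈ blk j, ‖b m * e (t0 * √(m:ℝ))‖ ≤ ∑ m ∈ blk j, C1 * Q ^ (-(3/2) + κ) := by
            apply sum_le_sum
            intro m hm
            rw [norm_mul, norm_e, mul_one]
            refine (hb m hm).trans ?_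
            have : 0 < Q ^ (-(3/2) + κ) := by positivity
            calc C1 * g * Q ^ (-(3/2) + κ) ≤ C1 * 1 * Q ^ (-(3/2) + κ) := by gcongr
              _ = _ := by ring
        _ = 3 * C1 * (Q^2 * Q ^ (-(3/2) + κ)) := by rw [sum_const, nsmul_eq_mul, blk_card, h4Q]; ring
        _ = _ := by
            congr 1
            rw [← Real.rpow_natCast Q 2, ← Real.rpow_add hQ0, ← Real.rpow_add hQ0]
            congr 1; push_cast; ring
    calc v^2 ≤ (3 * C1 * (Q ^ (1/2:ℝ) * Q ^ κ))^2 := pow_le_pow_left₀ hv.le h1 2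
      _ = 9 * C1^2 * ((Q ^ (1/2:ℝ))^2 * (Q ^ κ)^2) := by ring
      _ = 9 * C1^2 * (Q * (Q ^ κ)^2) := by
          have e5 : (Q ^ (1/2:ℝ))^2 = Q := by
            rw [← Real.rpow_natCast, ← Real.rpow_mul hQ0.le]; norm_num
          rw [e5]
      _ ≤ 9 * C1^2 * (Q * (2 * L)^2) := by gcongr
      _ = _ := by ring
  have hQinv : 1 / Q ≤ 36 * C1^2 * L^2 / v^2 := by
    rw [div_le_div_iff₀ hQ0 (by positivity)]
    linarith
  -- g² Q ≤ 1 / d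
  have hgQ : g^2 * Q ≤ 1 / d := by
    rcases le_total (d * Q) 1 with h | h
    · have h1 : Q ≤ 1 / d := by rw [le_div_iff₀ hd]; linarith
      nlinarith
    · have h1 : g ≤ (d * Q) ^ (-(3/2):ℝ) := min_le_right _ _
      have h2 : g^2 ≤ (d * Q) ^ (-(3:ℝ)) := by
        calc g^2 ≤ ((d * Q) ^ (-(3/2):ℝ))^2 := pow_le_pow_left₀ hg0.le h1 2
          _ = _ := by rw [← Real.rpow_natCast, ← Real.rpow_mul (by positivity)]; norm_num
      have h3 : (d * Q) ^ (-(3:ℝ)) ≤ (d * Q) ^ (-(1:ℝ)) := Real.rpow_le_rpow_of_exponent_le h (by norm_num)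
      rw [Real.rpow_neg_one] at h3
      calc g^2 * Q ≤ (d * Q)⁻¹ * Q := mul_le_mul_of_nonneg_right (h2.trans h3) hQ0.le
        _ = 1 / d := by field_simp
  set B : ℝ := g^2 * (Q + 1 / δ) with hB
  have hB0 : 0 < B := by positivity
  set Hw : ℝ := v^4 * Q / (4 * D^2 * L^8) with hHw
  have hHw0 : 0 < Hw := by positivity
  have hone : ∀ i : ℕ, ((S.filter (fun t => ⌊(t - x) / Hw⌋₊ = i)).card : ℝ) ≤ 2 * D * L^4 * B / v^2 := by
    intro i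
    set T := S.filter (fun t => ⌊(t - x) / Hw⌋₊ = i) with hT
    have hTS : T ⊆ S := filter_subset _ _
    have hTw : ∀ t ∈ T, x + i * Hw ≤ t ∧ t ≤ x + i * Hw + Hw := by
      intro t ht
      rw [hT, mem_filter] at ht
      have h1 := (hS t ht.1).1
      have h2 := Nat.floor_le (show 0 ≤ (t - x) / Hw by
        apply div_nonneg _ hHw0.le
        linarith)
      have h3 := Nat.lt_floor_add_one ((t - x) / Hw)
      rw [ht.2] at h2 h3
      rw [le_div_iff₀ hHw0] at h2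
      rw [div_lt_iff₀ hHw0] at h3
      constructor <;> nlinarith
    have h1 := hwin j b g v δ Z (x + i * Hw) Hw T hv hg0.le hg1 hZ hδZ hδ1 hjZ hHw0.le hb (hsep.subset hTS) hTw
      (fun t ht => hvS t (hTS ht))
    have h2 : √(Hw / Q) = v^2 / (2 * D * L^4) := by
      have : Hw / Q = (v^2 / (2 * D * L^4))^2 := by rw [hHw]; field_simp; ring
      rw [this, Real.sqrt_sq (by positivity)]
    rw [h2] at h1
    have h3 : D * L^4 * (B + T.card * (v^2 / (2 * D * L^4))) = D * L^4 * B + T.card * v^2 / 2 := by field_simp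
    rw [h3] at h1
    rw [le_div_iff₀ (by positivity)]
    linarith
  have hcard : (S.card : ℝ) ≤ (H / Hw + 1) * (2 * D * L^4 * B / v^2) := by
    have h1 : S.card = ∑ i ∈ range (⌊H / Hw⌋₊ + 1), (S.filter (fun t => ⌊(t - x) / Hw⌋₊ = i)).card := by
      apply card_eq_sum_card_fiberwise
      intro t ht
      rw [mem_coe, mem_range]
      have h2 := (hS t ht).2
      have h3 : ⌊(t - x) / Hw⌋₊ ≤ ⌊H / Hw⌋₊ := by
        apply Nat.floor_le_floor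
        gcongr
        linarith
      exact Nat.lt_succ_of_le h3
    rw [h1]
    push_cast
    refine (sum_le_sum fun i _ => hone i).trans ?_
    rw [sum_const, card_range, nsmul_eq_mul]
    apply mul_le_mul_of_nonneg_right _ (by positivity)
    push_cast
    have := Nat.floor_le (show 0 ≤ H / Hw by positivity)
    linarith
  refine hcard.trans ?_
  have e1 : (H / Hw + 1) * (2 * D * L^4 * B / v^2) = 8 * D^3 * L^12 * (H * (B / Q)) / v^6 + 2 * D * L^4 * B / v^2 := by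
    rw [hHw]; field_simp; ring
  rw [e1]
  have hBQ : B / Q ≤ 1 + (36 * C1^2 * L^2 / v^2) / δ := by
    have h1 : B / Q ≤ (Q + 1 / δ) / Q := by
      gcongr
      rw [hB]
      calc g^2 * (Q + 1 / δ) ≤ 1 * (Q + 1 / δ) := mul_le_mul_of_nonneg_right hg2 (by positivity)
        _ = _ := one_mul _
    have h2 : (Q + 1 / δ) / Q = 1 + (1 / Q) / δ := by field_simp
    rw [h2] at h1
    refine h1.trans ?_
    gcongr
  have hB2 : B ≤ 1 / d + 1 / δ := by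
    rw [hB, mul_add]
    apply add_le_add hgQ
    calc g^2 * (1 / δ) ≤ 1 * (1 / δ) := mul_le_mul_of_nonneg_right hg2 (by positivity)
      _ = _ := one_mul _
  have hL12 : L^12 ≤ L^14 := pow_le_pow_right₀ hL1 (by norm_num)
  have hL4 : L^4 ≤ L^14 := pow_le_pow_right₀ hL1 (by norm_num)
  have t1 : 8 * D^3 * L^12 * (H * (B / Q)) / v^6 ≤ 8 * D^3 * (1 + 36 * C1^2) * L^14 * (H / v^6 + H / (v^8 * δ)) := by
    have a1 : 8 * D^3 * L^12 * (H * (B / Q)) / v^6 ≤ 8 * D^3 * L^12 * (H * (1 + (36 * C1^2 * L^2 / v^2) / δ)) / v^6 := by gcongr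
    refine a1.trans ?_
    have a2 : 8 * D^3 * L^12 * (H * (1 + (36 * C1^2 * L^2 / v^2) / δ)) / v^6 =
        8 * D^3 * L^12 * (H / v^6) + 8 * D^3 * (36 * C1^2) * L^14 * (H / (v^8 * δ)) := by
      field_simp
    rw [a2]
    have a3 : 0 ≤ H / v^6 := by positivity
    have a4 : 0 ≤ H / (v^8 * δ) := by positivity
    have a5 : 8 * D^3 * L^12 * (H / v^6) ≤ 8 * D^3 * L^14 * (H / v^6) := by gcongr
    have a6 : 0 ≤ 8 * D^3 * (36 * C1^2) * L^14 * (H / v^6) := by positivity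
    have a7 : 0 ≤ 8 * D^3 * L^14 * (H / (v^8 * δ)) := by positivity
    have a8 : 8 * D^3 * (1 + 36 * C1^2) * L^14 * (H / v^6 + H / (v^8 * δ)) =
        8 * D^3 * L^14 * (H / v^6) + 8 * D^3 * (36 * C1^2) * L^14 * (H / v^6) +
        8 * D^3 * L^14 * (H / (v^8 * δ)) + 8 * D^3 * (36 * C1^2) * L^14 * (H / (v^8 * δ)) := by ring
    rw [a8]
    linarith
  have t2 : 2 * D * L^4 * B / v^2 ≤ 2 * D * L^14 * (1 / (v^2 * d) + 1 / (v^2 * δ)) := by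
    calc 2 * D * L^4 * B / v^2 ≤ 2 * D * L^14 * (1 / d + 1 / δ) / v^2 := by gcongr
      _ = _ := by field_simp
  have p1 : 0 ≤ H / v^6 + H / (v^8 * δ) := by positivity
  have p2 : 0 ≤ 1 / (v^2 * d) + 1 / (v^2 * δ) := by positivity
  have q1 : 0 ≤ 8 * D^3 * (1 + 36 * C1^2) * L^14 * (1 / (v^2 * d) + 1 / (v^2 * δ)) := by positivity
  have q2 : 0 ≤ 2 * D * L^14 * (H / v^6 + H / (v^8 * δ)) := by positivity
  calc _ ≤ 8 * D^3 * (1 + 36 * C1^2) * L^14 * (H / v^6 + H / (v^8 * δ)) + 2 * D * L^14 * (1 / (v^2 * d) + 1 / (v^2 * δ)) :=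
        add_le_add t1 t2
    _ ≤ (8 * D^3 * (1 + 36 * C1^2) * L^14 * (H / v^6 + H / (v^8 * δ)) + 2 * D * L^14 * (1 / (v^2 * d) + 1 / (v^2 * δ))) +
        (8 * D^3 * (1 + 36 * C1^2) * L^14 * (1 / (v^2 * d) + 1 / (v^2 * δ)) + 2 * D * L^14 * (H / v^6 + H / (v^8 * δ))) := by linarith
    _ = _ := by ring

end Pool.Agent.NH14.SM
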