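import Mathlib
import Pool.Agent.NH14.SM.S2
import Pool.Agent.H425R3.MM.K7

/-! Large values of the error term at well-spaced points. -/

set_option autoImplicit false

open Finset Filter Topology
open Pool.Agent.H469R2.NK
open Pool.Agent.H425R3.MM
open Pool.Agent.H452R2
open Pool.Agent.H383
open Pool.Agent.H383.Gauss Pool.Agent.H383.AP

namespace Pool.Agent.NH14.SM

variable {E : ℝ → ℝ} {a : ℕ → ℝ} {φ : ℝ} {w : ℝ → ℂ}

lemma card_sep {δ x H : ℝ} {T : Finset ℝ} (hδ : 0 < δ) (hH : 0 ≤ H) (hsep : Sep δ T)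
    (hT : ∀ t ∈ T, x ≤ t ∧ t ≤ x + H) : (T.card : ℝ) ≤ H / δ + 1 := by
  classical
  have hinj : Set.InjOn (fun t : ℝ => ⌊(t - x) / δ⌋₊) T := by
    intro s hs t ht hst
    by_contra hne
    have h1 := hsep s hs t ht hne
    simp only at hst
    have s1 := Nat.floor_le (show 0 ≤ (s - x) / δ from div_nonneg (by linarith [(hT s hs).1]) hδ.le)
    have s2 := Nat.lt_floor_add_one ((s - x) / δ)
    have t1 := Nat.floor_le (show 0 ≤ (t - x) / δ from div_nonneg (by linarith [(hT t ht).1]) hδ.le)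
    have t2 := Nat.lt_floor_add_one ((t - x) / δ)
    rw [hst] at s1 s2
    rw [le_div_iff₀ hδ] at s1 t1
    rw [div_lt_iff₀ hδ] at s2 t2
    have : |s - t| < δ := by rw [abs_lt]; constructor <;> nlinarith
    linarith
  have hsub : T.image (fun t : ℝ => ⌊(t - x) / δ⌋₊) ⊆ range (⌊H / δ⌋₊ + 1) := by
    intro n hn
    rw [mem_image] at hn
    obtain ⟨t, ht, rfl⟩ := hn
    rw [mem_range]
    have : ⌊(t - x) / δ⌋₊ ≤ ⌊H / δ⌋₊ := by
      apply Nat.floor_le_floor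
      gcongr
      linarith [(hT t ht).2]
    omega
  have h1 := card_le_card hsub
  rw [card_image_of_injOn hinj, card_range] at h1
  have h2 : (T.card : ℝ) ≤ (⌊H / δ⌋₊ : ℝ) + 1 := by exact_mod_cast h1
  have h3 := Nat.floor_le (show 0 ≤ H / δ by positivity)
  linarith

/-- a term of the smoothed series -/
lemma wt_cbR (X' d : ℝ) (m : ℕ) (t : ℝ) : GW.wt a φ w (t + X') d m = (cb a φ w X' d m * e (t * √(m:ℝ))).re := by
  unfold GW.wt cb e Gen.ac
  rw [← Complex.re_ofReal_mul]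
  congr 1
  have h : Complex.exp (((2 * Real.pi * ((t + X') * √(m:ℝ)) - φ : ℝ) : ℂ) * Complex.I) =
      Complex.exp (((2 * Real.pi * (X' * √(m:ℝ)) - φ : ℝ) : ℂ) * Complex.I) *
      Complex.exp (((2 * Real.pi * (t * √(m:ℝ)) : ℝ) : ℂ) * Complex.I) := by
    rw [← Complex.exp_add]
    congr 1
    push_cast; ring
  rw [h]
  ring

lemma blk_wt_leR (X' d : ℝ) (j : ℕ) (t : ℝ) : |∑ m ∈ blk j, GW.wt a φ w (t + X') d m| ≤ ‖Fb (cb a φ w X' d) j t‖ := by
  have h2 : ∑ m ∈ blk j, GW.wt a φ w (t + X') d m = (Fb (cb a φ w X' d) j t).re := by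
    unfold Fb
    rw [Complex.re_sum]
    exact sum_congr rfl (fun m _ => wt_cbR X' d m t)
  rw [h2]
  exact Complex.abs_re_le_norm _

/-- the number of blocks -/
lemma blocks (κ : ℝ) (hκ : 0 < κ) : ∃ C : ℝ, 1 ≤ C ∧ ∀ X : ℝ, 4 ≤ X → ∃ J : ℕ, 1 ≤ J ∧ X ≤ (2:ℝ)^J ∧
    (∀ j : ℕ, j < J → (2:ℝ)^j ≤ 2 * X) ∧ (2 * J : ℝ) ≤ C * X ^ κ := by
  have h0 : 0 < 4/κ := by positivity
  refine ⟨4 + 4/κ, by linarith, fun X hX => ?_⟩
  have hX0 : 0 < X := by linarith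
  set J := Nat.clog 2 ⌈X⌉₊ with hJ
  have hc : 4 ≤ ⌈X⌉₊ := by
    have : (4:ℝ) ≤ ⌈X⌉₊ := hX.trans (Nat.le_ceil X)
    exact_mod_cast this
  have hJ1 : 1 ≤ J := Nat.clog_pos (by norm_num) (by omega)
  have h1 : ⌈X⌉₊ ≤ 2 ^ J := Nat.le_pow_clog (by norm_num) _
  have h2 : 2 ^ (J - 1) < ⌈X⌉₊ := by
    have := Nat.pow_pred_clog_lt_self (b := 2) (by norm_num) (x := ⌈X⌉₊) (by omega)
    simpa using this
  have h3 : (⌈X⌉₊ : ℝ) ≤ 2 * X := by
    have := Nat.ceil_lt_add_one hX0.le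
    linarith
  have h4 : (2:ℝ) ^ (J - 1) ≤ 2 * X := by
    have : ((2 ^ (J - 1) : ℕ) : ℝ) ≤ (⌈X⌉₊ : ℝ) := by exact_mod_cast h2.le
    push_cast at this
    linarith
  refine ⟨J, hJ1, ?_, ?_, ?_⟩
  · have : (⌈X⌉₊ : ℝ) ≤ ((2 ^ J : ℕ) : ℝ) := by exact_mod_cast h1
    push_cast at this
    exact (Nat.le_ceil X).trans this
  · intro j hj
    refine le_trans ?_ h4
    exact pow_le_pow_right₀ (by norm_num) (by omega)
  · have h5 : ((J - 1 : ℕ) : ℝ) * Real.log 2 ≤ Real.log (2 * X) := by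
      rw [← Real.log_pow]
      exact Real.log_le_log (by positivity) h4
    rw [Real.log_mul (by norm_num) hX0.ne'] at h5
    have h6 := Real.log_two_gt_d9
    have h7 := Real.log_two_lt_d9
    have h8 : ((J - 1 : ℕ) : ℝ) = J - 1 := by
      rw [Nat.cast_sub hJ1]; norm_num
    rw [h8] at h5
    have h9 := Real.log_le_rpow_div hX0.le hκ
    have h10 : 1 ≤ X ^ κ := Real.one_le_rpow (by linarith) hκ.le
    have h11 : (4 + 4/κ) * X ^ κ = 4 * X ^ κ + 4 * (X ^ κ / κ) := by ring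
    rw [h11]
    have h12 : (0:ℝ) ≤ J - 1 := by
      have : (1:ℝ) ≤ J := by exact_mod_cast hJ1
      linarith
    have h13 : ((J:ℝ) - 1) * 0.69 ≤ Real.log 2 + Real.log X := by nlinarith
    have h14 : 0 ≤ Real.log X := Real.log_nonneg (by linarith)
    nlinarith

lemma ev_small' (c : ℝ) {y η : ℝ} (hy : 0 < y) (hη : 0 < η) : ∀ᶠ Z : ℝ in atTop, c * Z ^ (-y) ≤ η := by
  have h1 : Tendsto (fun Z : ℝ => c * Z ^ (-y)) atTop (𝓝 (c * 0)) := (tendsto_rpow_neg_atTop hy).const_mul c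
  rw [mul_zero] at h1
  filter_upwards [h1.eventually (gt_mem_nhds hη)] with Z hZ
  exact hZ.le

/-- large values in the main range -/
theorem lv_main (ha : Win.Bdw a) (ha0 : a 0 = 0) (hw : GW.Wt w) {κ₁ κ₂ : ℝ} (hS : Win.SandW E a φ w κ₁ κ₂)
    {ε : ℝ} (hε : 0 < ε) (hε1 : ε ≤ 1) :
    ∃ C X0 V0 : ℝ, 0 < C ∧ 4 ≤ X0 ∧ 1 ≤ V0 ∧ ∀ (X H δ V : ℝ) (T : Finset ℝ), X0 ≤ X → 0 ≤ H → H ≤ X → 1 / X ≤ δ → δ ≤ 1 →
      V0 ≤ V → V ≤ X ^ (1/5:ℝ) → (∀ t ∈ T, (X ≤ t ∧ t ≤ X + H) ∧ V ≤ |E t|) → Sep δ T →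
      (T.card : ℝ) ≤ C * X ^ ε * (H / V^6 + H / (V^8 * δ) + X ^ (1/2:ℝ) / V^3 + 1 / (V^2 * δ)) := by
  classical
  set κ : ℝ := ε / 100 with hκd
  have hκ : 0 < κ := by positivity
  have hκ1 : κ ≤ 1 := by rw [hκd]; linarith
  set ω : ℝ := ε / 200 with hωd
  have hω : 0 < ω := by positivity
  have hω1 : ω ≤ 1/200 := by rw [hωd]; linarith
  obtain ⟨Ca, hCa, haC⟩ := ha (κ/2) (by positivity)
  obtain ⟨Cw, hCw, hwd⟩ := hw.dec
  obtain ⟨D, hD, hLV⟩ := lvR (κ := κ) (C1 := Ca * (Cw + 1)) hκ hκ1 (by positivity)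
  obtain ⟨Ct, hCt, htail⟩ := GW.WS_tail (a := a) (φ := φ) ha.Bd ha0 hw
  obtain ⟨C0, hC0, hS⟩ := hS (ω/2) (by positivity)
  obtain ⟨CJ, hCJ, hJ⟩ := blocks κ hκ
  set V0 : ℝ := 8 * |a 1| + 1 with hV0
  have hV01 : 1 ≤ V0 := by have := abs_nonneg (a 1); rw [hV0]; linarith
  have hev : ∀ᶠ X : ℝ in atTop, (2 * C0 * X ^ (-(ω/2)) ≤ 1/24) ∧ (C0 * X ^ (-(1/5):ℝ) ≤ 1/24) ∧
      (C0 * X ^ (-(3/25):ℝ) ≤ 1/24) ∧ (Ct * X ^ (-(1/5):ℝ) ≤ 1/8) ∧ (1 * X ^ (-(3/10):ℝ) ≤ 1/2) := by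
    filter_upwards [ev_small' (2 * C0) (y := ω/2) (η := 1/24) (by positivity) (by norm_num),
      ev_small' C0 (y := 1/5) (η := 1/24) (by norm_num) (by norm_num),
      ev_small' C0 (y := 3/25) (η := 1/24) (by norm_num) (by norm_num),
      ev_small' Ct (y := 1/5) (η := 1/8) (by norm_num) (by norm_num),
      ev_small' 1 (y := 3/10) (η := 1/2) (by norm_num) (by norm_num)] with X h1 h2 h3 h4 h5
    exact ⟨h1, h2, h3, h4, h5⟩
  obtain ⟨X1, hX1⟩ := eventually_atTop.mp hev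
  refine ⟨D * CJ ^ 9, max X1 4, V0, by positivity, le_max_right _ _, hV01, ?_⟩
  intro X H δ V T hX hH hHX hδX hδ1 hVV hVX hT hsep
  obtain ⟨z1, z2, z3, z4, z5⟩ := hX1 X ((le_max_left _ _).trans hX)
  have hX4 : 4 ≤ X := (le_max_right _ _).trans hX
  have hX0 : 0 < X := by linarith
  have hX1' : 1 ≤ X := by linarith
  have hV0' : 0 < V := by linarith
  have hV1 : 1 ≤ V := by linarith
  have hδ0 : 0 < δ := lt_of_lt_of_le (by positivity) hδX
  set d : ℝ := V * X ^ (-(1/2 + ω)) with hd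
  have hXω : 0 < X ^ (-(1/2 + ω)) := by positivity
  have hd0 : 0 < d := by positivity
  have hdX : X ^ (-(1/2 + ω)) ≤ d := by rw [hd]; exact le_mul_of_one_le_left hXω.le hV1
  have hd310 : d ≤ X ^ (-(3/10):ℝ) := by
    calc d ≤ X ^ (1/5:ℝ) * X ^ (-(1/2 + ω)) := by rw [hd]; exact mul_le_mul_of_nonneg_right hVX hXω.le
      _ = X ^ (1/5 + -(1/2 + ω)) := by rw [← Real.rpow_add hX0]
      _ ≤ _ := Real.rpow_le_rpow_of_exponent_le hX1' (by linarith)
  have hd12 : d ≤ 1/2 := by linarith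
  obtain ⟨J, hJ1, hJX, hJle, hJC⟩ := hJ X hX4
  have hJ0 : (0:ℝ) < J := by exact_mod_cast hJ1
  -- coefficients
  have hbb : ∀ X' : ℝ, ∀ j : ℕ, ∀ m ∈ blk j, ‖cb a φ w X' d m‖ ≤
      Ca * (Cw + 1) * min 1 ((d * (2:ℝ)^j) ^ (-(3/2):ℝ)) * ((2:ℝ)^j) ^ (-(3/2) + κ) := by
    intro X' j m hm
    unfold blk at hm
    rw [mem_Ioc] at hm
    have hm1 : 1 ≤ m := by
      have : 0 < 4^j := by positivity
      omega
    have hm0 : (0:ℝ) < m := by exact_mod_cast hm1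
    have hs : 0 < √(m:ℝ) := Real.sqrt_pos.mpr hm0
    have hQ0 : (0:ℝ) < (2:ℝ)^j := by positivity
    have h4 : ((2:ℝ)^j)^2 ≤ m := by
      rw [← four_eq]
      exact_mod_cast hm.1.le
    have hsQ : (2:ℝ)^j ≤ √(m:ℝ) := Real.le_sqrt_of_sq_le h4
    unfold cb
    rw [norm_mul, Gen.norm_ac]
    have h2 := haC m hm1
    have h6 : (m:ℝ) ^ (-(3/4) + κ/2) ≤ ((2:ℝ)^j) ^ (-(3/2) + κ) := by
      calc (m:ℝ) ^ (-(3/4) + κ/2) ≤ (((2:ℝ)^j)^2) ^ (-(3/4) + κ/2) :=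
            Real.rpow_le_rpow_of_nonpos (by positivity) h4 (by linarith)
        _ = _ := by
            rw [← Real.rpow_natCast ((2:ℝ)^j) 2, ← Real.rpow_mul hQ0.le]
            congr 1; push_cast; ring
    have h5 : ‖w (√(m:ℝ) * d)‖ ≤ (Cw + 1) * min 1 ((d * (2:ℝ)^j) ^ (-(3/2):ℝ)) := by
      have h3 := hw.one (√(m:ℝ) * d) (by positivity)
      have h4 := hwd (√(m:ℝ) * d) (by positivity)
      have h7 : (√(m:ℝ) * d) ^ (-(3/2):ℝ) ≤ (d * (2:ℝ)^j) ^ (-(3/2):ℝ) := by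
        apply Real.rpow_le_rpow_of_nonpos (by positivity) _ (by norm_num)
        rw [mul_comm d]
        exact mul_le_mul_of_nonneg_right hsQ hd0.le
      rcases min_choice (1:ℝ) ((d * (2:ℝ)^j) ^ (-(3/2):ℝ)) with hc | hc
      · rw [hc]; linarith
      · rw [hc]
        have h8 : 0 ≤ (d * (2:ℝ)^j) ^ (-(3/2):ℝ) := by positivity
        calc _ ≤ Cw * (√(m:ℝ) * d) ^ (-(3/2):ℝ) := h4
          _ ≤ Cw * (d * (2:ℝ)^j) ^ (-(3/2):ℝ) := mul_le_mul_of_nonneg_left h7 hCw.le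
          _ ≤ _ := by nlinarith
    calc |a m| * ‖w (√(m:ℝ) * d)‖ ≤ (Ca * ((2:ℝ)^j) ^ (-(3/2) + κ)) * ((Cw + 1) * min 1 ((d * (2:ℝ)^j) ^ (-(3/2):ℝ))) := by
          apply mul_le_mul _ h5 (norm_nonneg _) (by positivity)
          exact h2.trans (mul_le_mul_of_nonneg_left h6 hCa.le)
      _ = _ := by ring
  -- the smoothed series
  have hWS : ∀ (κ' t : ℝ), |GW.WS a φ w (t + κ' * d) d| ≤
      |a 1| + ∑ j ∈ range J, ‖Fb (cb a φ w (κ' * d) d) j t‖ + 1/8 := by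
    intro κ' t
    have t1 := htail d hd0 (t + κ' * d) (2^J) Nat.one_le_two_pow
    have e4 : ((2^J)^2 : ℕ) = 4^J := by rw [← pow_mul, mul_comm, pow_mul]; norm_num
    rw [e4, Pool.Agent.H425R3.MM.sum_blocks] at t1
    have t2 : Ct * d ^ (-(3/2):ℝ) * ((2^J : ℕ):ℝ) ^ (-(24/25):ℝ) ≤ 1/8 := by
      have i1 : d ^ (-(3/2):ℝ) ≤ X ^ (3/4 + 3/2 * ω) := by
        calc d ^ (-(3/2):ℝ) ≤ (X ^ (-(1/2 + ω))) ^ (-(3/2):ℝ) := Real.rpow_le_rpow_of_nonpos hXω hdX (by norm_num)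
          _ = _ := by rw [← Real.rpow_mul hX0.le]; congr 1; ring
      have i2 : ((2^J : ℕ):ℝ) ^ (-(24/25):ℝ) ≤ X ^ (-(24/25):ℝ) := by
        apply Real.rpow_le_rpow_of_nonpos hX0 _ (by norm_num)
        push_cast; exact hJX
      calc Ct * d ^ (-(3/2):ℝ) * ((2^J : ℕ):ℝ) ^ (-(24/25):ℝ) ≤ Ct * X ^ (3/4 + 3/2 * ω) * X ^ (-(24/25):ℝ) := by gcongr
        _ = Ct * X ^ (3/4 + 3/2 * ω + -(24/25)) := by rw [mul_assoc, ← Real.rpow_add hX0]
        _ ≤ Ct * X ^ (-(1/5):ℝ) := by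
            apply mul_le_mul_of_nonneg_left _ hCt.le
            exact Real.rpow_le_rpow_of_exponent_le hX1' (by linarith)
        _ ≤ _ := z4
    have t3 : |GW.wt a φ w (t + κ' * d) d 1| ≤ |a 1| := by
      refine (GW.abs_wt_le _ _ _).trans ?_
      have := hw.one (√((1:ℕ):ℝ) * d) (by rw [Nat.cast_one, Real.sqrt_one, one_mul]; exact hd0)
      calc |a 1| * ‖w (√((1:ℕ):ℝ) * d)‖ ≤ |a 1| * 1 := mul_le_mul_of_nonneg_left this (abs_nonneg _)
        _ = _ := mul_one _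
    have t4 : |∑ j ∈ range J, ∑ m ∈ blk j, GW.wt a φ w (t + κ' * d) d m| ≤
        ∑ j ∈ range J, ‖Fb (cb a φ w (κ' * d) d) j t‖ :=
      (abs_sum_le_sum_abs _ _).trans (sum_le_sum (fun j _ => blk_wt_leR _ _ _ _))
    set A := GW.WS a φ w (t + κ' * d) d
    set B := GW.wt a φ w (t + κ' * d) d 1
    set D' := ∑ j ∈ range J, ∑ m ∈ blk j, GW.wt a φ w (t + κ' * d) d m
    have t5 : |A| ≤ |A - (B + D')| + |B| + |D'| := by
      calc |A| = |(A - (B + D')) + B + D'| := by congr 1; ring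
        _ ≤ |(A - (B + D')) + B| + |D'| := abs_add_le _ _
        _ ≤ _ := by gcongr; exact abs_add_le _ _
    linarith
  -- the error term
  have herr : ∀ t : ℝ, X ≤ t → t ≤ X + H → C0 * Win.erw (ω/2) t d ≤ V / 8 := by
    intro t ht1 ht2
    have ht0 : 0 < t := by linarith
    have ht3 : t ≤ 2 * X := by linarith
    have i1 : C0 * (d * t ^ (1/2 + ω/2)) ≤ V / 24 := by
      have g2 : t ^ (1/2 + ω/2) ≤ 2 * X ^ (1/2 + ω/2) := by
        calc t ^ (1/2 + ω/2) ≤ (2 * X) ^ (1/2 + ω/2) := Real.rpow_le_rpow ht0.le ht3 (by positivity)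
          _ = 2 ^ (1/2 + ω/2) * X ^ (1/2 + ω/2) := Real.mul_rpow (by norm_num) hX0.le
          _ ≤ 2 * X ^ (1/2 + ω/2) := by
              apply mul_le_mul_of_nonneg_right _ (by positivity)
              calc (2:ℝ) ^ (1/2 + ω/2) ≤ 2 ^ (1:ℝ) := Real.rpow_le_rpow_of_exponent_le (by norm_num) (by linarith)
                _ = 2 := Real.rpow_one _
      calc C0 * (d * t ^ (1/2 + ω/2)) ≤ C0 * (d * (2 * X ^ (1/2 + ω/2))) := by gcongr
        _ = V * (2 * C0 * (X ^ (-(1/2 + ω)) * X ^ (1/2 + ω/2))) := by rw [hd]; ring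
        _ = V * (2 * C0 * X ^ (-(ω/2))) := by rw [← Real.rpow_add hX0]; congr 3; ring
        _ ≤ V * (1/24) := mul_le_mul_of_nonneg_left z1 hV0'.le
        _ = V / 24 := by ring
    have i2 : C0 * (t ^ (-(12/25):ℝ) * d ^ (-(13/25):ℝ)) ≤ V / 24 := by
      have j1 : t ^ (-(12/25):ℝ) ≤ X ^ (-(12/25):ℝ) := Real.rpow_le_rpow_of_nonpos hX0 ht1 (by norm_num)
      have j2 : d ^ (-(13/25):ℝ) ≤ X ^ ((1/2 + ω) * (13/25)) := by
        calc d ^ (-(13/25):ℝ) ≤ (X ^ (-(1/2 + ω))) ^ (-(13/25):ℝ) := Real.rpow_le_rpow_of_nonpos hXω hdX (by norm_num)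
          _ = _ := by rw [← Real.rpow_mul hX0.le]; congr 1; ring
      calc C0 * (t ^ (-(12/25):ℝ) * d ^ (-(13/25):ℝ)) ≤ C0 * (X ^ (-(12/25):ℝ) * X ^ ((1/2 + ω) * (13/25))) := by gcongr
        _ = C0 * X ^ (-(12/25) + (1/2 + ω) * (13/25)) := by rw [Real.rpow_add hX0]
        _ ≤ C0 * X ^ (-(1/5):ℝ) := by
            apply mul_le_mul_of_nonneg_left _ hC0.le
            exact Real.rpow_le_rpow_of_exponent_le hX1' (by linarith)
        _ ≤ 1/24 := z2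
        _ ≤ V/24 := by linarith
    have i3 : C0 * d ^ (2/5:ℝ) ≤ V / 24 := by
      calc C0 * d ^ (2/5:ℝ) ≤ C0 * (X ^ (-(3/10):ℝ)) ^ (2/5:ℝ) := by gcongr
        _ = C0 * X ^ (-(3/25):ℝ) := by rw [← Real.rpow_mul hX0.le]; norm_num
        _ ≤ 1/24 := z3
        _ ≤ V/24 := by linarith
    unfold Win.erw
    have : C0 * (d * t ^ (1/2 + ω/2) + t ^ (-(12/25):ℝ) * d ^ (-(13/25):ℝ) + d ^ (2/5:ℝ)) =
        C0 * (d * t ^ (1/2 + ω/2)) + C0 * (t ^ (-(12/25):ℝ) * d ^ (-(13/25):ℝ)) + C0 * d ^ (2/5:ℝ) := by ring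
    linarith
  -- some block is large
  have ha1v : |a 1| ≤ V / 8 := by rw [hV0] at hVV; linarith
  set v : ℝ := V / (2 * J) with hv
  have hv0 : 0 < v := by positivity
  set bi : Fin 2 → ℕ → ℂ := fun i => if i = 0 then cb a φ w (κ₁ * d) d else cb a φ w (κ₂ * d) d with hbi
  have hsub : T ⊆ ((univ : Finset (Fin 2)) ×ˢ range J).biUnion (fun p => T.filter (fun t => v ≤ ‖Fb (bi p.1) p.2 t‖)) := by
    intro t ht
    obtain ⟨⟨ht1, ht2⟩, hVt⟩ := hT t ht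
    have ht4 : 4 ≤ t := by linarith
    obtain ⟨h1, h2⟩ := hS t t d ht4 hd0 hd12 (by rw [sub_self, abs_zero]; exact hd0.le)
    have g1 := hWS κ₁ t
    have g2 := hWS κ₂ t
    have g3 := herr t ht1 ht2
    have hex : ∃ i : Fin 2, V / 2 ≤ ∑ j ∈ range J, ‖Fb (bi i) j t‖ := by
      rcases le_abs.mp hVt with h3 | h3
      · refine ⟨0, ?_⟩
        simp only [hbi, if_true]
        have := le_abs_self (GW.WS a φ w (t + κ₁ * d) d)
        linarith
      · refine ⟨1, ?_⟩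
        simp only [hbi, Fin.isValue, one_ne_zero, if_false]
        have := neg_abs_le (GW.WS a φ w (t + κ₂ * d) d)
        linarith
    obtain ⟨i, hi⟩ := hex
    have hex2 : ∃ j ∈ range J, v ≤ ‖Fb (bi i) j t‖ := by
      by_contra hne
      push Not at hne
      have h5 : ∑ j ∈ range J, ‖Fb (bi i) j t‖ < ∑ j ∈ range J, v := by
        apply sum_lt_sum_of_nonempty
        · rw [nonempty_range_iff]; omega
        · exact hne
      rw [sum_const, card_range, nsmul_eq_mul] at h5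
      have h6 : (J:ℝ) * v = V / 2 := by rw [hv]; field_simp
      linarith
    obtain ⟨j, hj, hjv⟩ := hex2
    rw [mem_biUnion]
    exact ⟨(i, j), mem_product.mpr ⟨mem_univ _, hj⟩, mem_filter.mpr ⟨ht, hjv⟩⟩
  have hL1 : 1 ≤ X ^ κ := Real.one_le_rpow hX1' hκ.le
  set G : ℝ := H / V^6 + H / (V^8 * δ) + X ^ (1/2:ℝ) / V^3 + 1 / (V^2 * δ) with hG
  have hG0 : 0 ≤ G := by positivity
  have hpiece : ∀ p ∈ (univ : Finset (Fin 2)) ×ˢ range J, ((T.filter (fun t => v ≤ ‖Fb (bi p.1) p.2 t‖)).card : ℝ) ≤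
      D * (X ^ κ) ^ 14 * ((CJ * X ^ κ) ^ 8 * (X ^ ω * G)) := by
    rintro ⟨i, j⟩ hp
    rw [mem_product] at hp
    have hj : j < J := mem_range.mp hp.2
    have hb : ∀ m ∈ blk j, ‖bi i m‖ ≤ Ca * (Cw + 1) * min 1 ((d * (2:ℝ)^j) ^ (-(3/2):ℝ)) * ((2:ℝ)^j) ^ (-(3/2) + κ) := by
      intro m hm
      simp only [hbi]
      split_ifs
      · exact hbb _ j m hm
      · exact hbb _ j m hm
    have h1 := hLV j (bi i) v δ d X X H (T.filter (fun t => v ≤ ‖Fb (bi i) j t‖)) hv0 hd0 hX1' hδX hδ1 (hJle j hj) hH hb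
      (hsep.subset (filter_subset _ _)) (fun t ht => (hT t (mem_filter.mp ht).1).1) (fun t ht => (mem_filter.mp ht).2)
    refine h1.trans ?_
    apply mul_le_mul_of_nonneg_left _ (by positivity)
    -- compare
    set y : ℝ := 2 * J with hy
    have hy1 : 1 ≤ y := by
      have : (1:ℝ) ≤ J := by exact_mod_cast hJ1
      rw [hy]; linarith
    have hyC : y ≤ CJ * X ^ κ := hJC
    have hpow : ∀ n : ℕ, n ≤ 8 → 1 / v^n ≤ (CJ * X ^ κ)^8 * (1 / V^n) := by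
      intro n hn
      have e1 : 1 / v^n = y^n * (1 / V^n) := by rw [hv, div_pow, one_div_div, mul_one_div]
      rw [e1]
      apply mul_le_mul_of_nonneg_right _ (by positivity)
      calc y^n ≤ y^8 := pow_le_pow_right₀ hy1 hn
        _ ≤ _ := pow_le_pow_left₀ (by linarith) hyC 8
    have hXω1 : 1 ≤ X ^ ω := Real.one_le_rpow hX1' hω.le
    set P := (CJ * X ^ κ)^8 with hP
    have hP0 : 0 < P := by positivity
    have q1 : H / v^6 ≤ P * (X ^ ω * (H / V^6)) := by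
      have h2 := hpow 6 (by norm_num)
      have h3 : H / v^6 ≤ P * (H / V^6) := by
        calc H / v^6 = H * (1 / v^6) := by ring
          _ ≤ H * (P * (1 / V^6)) := mul_le_mul_of_nonneg_left h2 hH
          _ = _ := by ring
      refine h3.trans (mul_le_mul_of_nonneg_left ?_ hP0.le)
      exact le_mul_of_one_le_left (by positivity) hXω1
    have q2 : H / (v^8 * δ) ≤ P * (X ^ ω * (H / (V^8 * δ))) := by
      have h2 := hpow 8 (by norm_num)
      have h3 : H / (v^8 * δ) ≤ P * (H / (V^8 * δ)) := by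
        calc H / (v^8 * δ) = (H / δ) * (1 / v^8) := by field_simp
          _ ≤ (H / δ) * (P * (1 / V^8)) := mul_le_mul_of_nonneg_left h2 (by positivity)
          _ = _ := by field_simp
      refine h3.trans (mul_le_mul_of_nonneg_left ?_ hP0.le)
      exact le_mul_of_one_le_left (by positivity) hXω1
    have q3 : 1 / (v^2 * d) ≤ P * (X ^ ω * (X ^ (1/2:ℝ) / V^3)) := by
      have h2 := hpow 2 (by norm_num)
      have e1 : 1 / d = X ^ ω * X ^ (1/2:ℝ) / V := by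
        rw [hd, Real.rpow_neg hX0.le, Real.rpow_add hX0]
        field_simp
      calc 1 / (v^2 * d) = (1 / d) * (1 / v^2) := by field_simp
        _ ≤ (1 / d) * (P * (1 / V^2)) := mul_le_mul_of_nonneg_left h2 (by positivity)
        _ = _ := by rw [e1]; field_simp
    have q4 : 1 / (v^2 * δ) ≤ P * (X ^ ω * (1 / (V^2 * δ))) := by
      have h2 := hpow 2 (by norm_num)
      have h3 : 1 / (v^2 * δ) ≤ P * (1 / (V^2 * δ)) := by
        calc 1 / (v^2 * δ) = (1 / δ) * (1 / v^2) := by field_simp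
          _ ≤ (1 / δ) * (P * (1 / V^2)) := mul_le_mul_of_nonneg_left h2 (by positivity)
          _ = _ := by field_simp
      refine h3.trans (mul_le_mul_of_nonneg_left ?_ hP0.le)
      exact le_mul_of_one_le_left (by positivity) hXω1
    have e5 : P * (X ^ ω * G) = P * (X ^ ω * (H / V^6)) + P * (X ^ ω * (H / (V^8 * δ))) +
        P * (X ^ ω * (X ^ (1/2:ℝ) / V^3)) + P * (X ^ ω * (1 / (V^2 * δ))) := by rw [hG]; ring
    rw [e5]
    linarith
  have hcard : (T.card : ℝ) ≤ (2 * J : ℝ) * (D * (X ^ κ) ^ 14 * ((CJ * X ^ κ) ^ 8 * (X ^ ω * G))) := by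
    have h1 : T.card ≤ ∑ p ∈ (univ : Finset (Fin 2)) ×ˢ range J, (T.filter (fun t => v ≤ ‖Fb (bi p.1) p.2 t‖)).card :=
      (card_le_card hsub).trans card_biUnion_le
    have h2 : (T.card : ℝ) ≤ ∑ p ∈ (univ : Finset (Fin 2)) ×ˢ range J, ((T.filter (fun t => v ≤ ‖Fb (bi p.1) p.2 t‖)).card : ℝ) := by
      exact_mod_cast h1
    refine h2.trans ((sum_le_sum hpiece).trans ?_)
    rw [sum_const, card_product, card_range, Finset.card_univ, Fintype.card_fin, nsmul_eq_mul]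
    push_cast
    exact le_rfl
  refine hcard.trans ?_
  calc (2 * J : ℝ) * (D * (X ^ κ) ^ 14 * ((CJ * X ^ κ) ^ 8 * (X ^ ω * G)))
      ≤ (CJ * X ^ κ) * (D * (X ^ κ) ^ 14 * ((CJ * X ^ κ) ^ 8 * (X ^ ω * G))) := by gcongr
    _ = D * CJ ^ 9 * ((X ^ κ) ^ 23 * X ^ ω) * G := by ring
    _ ≤ D * CJ ^ 9 * X ^ ε * G := by
        apply mul_le_mul_of_nonneg_right _ hG0
        apply mul_le_mul_of_nonneg_left _ (by positivity)
        rw [← Real.rpow_natCast (X ^ κ) 23, ← Real.rpow_mul hX0.le, ← Real.rpow_add hX0]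
        apply Real.rpow_le_rpow_of_exponent_le hX1'
        rw [hκd, hωd]; push_cast; linarith

/-- large values at well-spaced points -/
theorem lv_sep (ha : Win.Bdw a) (ha0 : a 0 = 0) (hw : GW.Wt w) {κ₁ κ₂ : ℝ} (hS : Win.SandW E a φ w κ₁ κ₂)
    {ε : ℝ} (hε : 0 < ε) :
    ∃ C : ℝ, 0 < C ∧ ∀ (X H δ V : ℝ) (T : Finset ℝ), 4 ≤ X → 0 ≤ H → H ≤ X → 1 / X ≤ δ → δ ≤ 1 → 1 ≤ V →
      (∀ t ∈ T, (X ≤ t ∧ t ≤ X + H) ∧ V ≤ |E t|) → Sep δ T →
      (T.card : ℝ) ≤ C * X ^ ε * (H / V^6 + H / (V^8 * δ) + X ^ (1/2:ℝ) / V^3 + 1 / (V^2 * δ)) := by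
  obtain ⟨Cs, hCs, hsup⟩ := supE ha ha0 hw hS (η := 1/100) (by norm_num) (by norm_num)
  obtain ⟨C, X0, V0, hC, hX04, hV01, hmain⟩ := lv_main ha ha0 hw hS (ε := min ε 1) (lt_min hε one_pos) (min_le_right _ _)
  have hev := ev_small' (2 * Cs) (y := 7/300) (η := 1/2) (by norm_num) (by norm_num)
  obtain ⟨X1, hX1⟩ := eventually_atTop.mp hev
  set X2 := max X0 X1 with hX2
  have hX24 : 4 ≤ X2 := hX04.trans (le_max_left _ _)
  set B : ℝ := 2 * Cs * X2 with hB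
  have hB0 : 0 < B := by positivity
  refine ⟨C + V0 ^ 8 + (X2 ^ 2 + 1) * B ^ 3, by positivity, ?_⟩
  intro X H δ V T hX hH hHX hδX hδ1 hV hT hsep
  have hX0 : 0 < X := by linarith
  have hX1' : 1 ≤ X := by linarith
  have hV0' : 0 < V := by linarith
  have hδ0 : 0 < δ := lt_of_lt_of_le (by positivity) hδX
  set G : ℝ := H / V^6 + H / (V^8 * δ) + X ^ (1/2:ℝ) / V^3 + 1 / (V^2 * δ) with hG
  have hG0 : 0 ≤ G := by positivity
  have hXε : 1 ≤ X ^ ε := Real.one_le_rpow hX1' hε.le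
  have htriv := card_sep hδ0 hH hsep (fun t ht => (hT t ht).1)
  have hsupT : ∀ t ∈ T, |E t| ≤ Cs * (2 * X) ^ (1/6 + 1/100:ℝ) := by
    intro t ht
    obtain ⟨⟨h1, h2⟩, -⟩ := hT t ht
    have ht4 : 4 ≤ t := by linarith
    have ht0 : 0 < t := by linarith
    refine (hsup t t ht4 (by rw [sub_self, abs_zero]; positivity)).trans ?_
    apply mul_le_mul_of_nonneg_left _ hCs.le
    exact Real.rpow_le_rpow ht0.le (by linarith) (by norm_num)
  have h2X : (2 * X) ^ (1/6 + 1/100:ℝ) ≤ 2 * X ^ (1/6 + 1/100:ℝ) := by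
    rw [Real.mul_rpow (by norm_num) hX0.le]
    apply mul_le_mul_of_nonneg_right _ (by positivity)
    calc (2:ℝ) ^ (1/6 + 1/100:ℝ) ≤ 2 ^ (1:ℝ) := Real.rpow_le_rpow_of_exponent_le (by norm_num) (by norm_num)
      _ = 2 := Real.rpow_one _
  rcases T.eq_empty_or_nonempty with rfl | ⟨t0, ht0⟩
  · rw [card_empty, Nat.cast_zero]; positivity
  have hVt : V ≤ 2 * Cs * X ^ (1/6 + 1/100:ℝ) := by
    have h1 := (hT t0 ht0).2.trans (hsupT t0 ht0)
    have h2 := mul_le_mul_of_nonneg_left h2X hCs.le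
    linarith
  rcases lt_or_ge X X2 with hlt | hge
  · -- bounded X
    have h1 : (T.card : ℝ) ≤ X2 ^ 2 + 1 := by
      have h3 : H / δ ≤ X2 ^ 2 := by
        rw [div_le_iff₀ hδ0]
        have h4 : 1 ≤ X * δ := by
          rw [div_le_iff₀ hX0] at hδX
          linarith
        calc H ≤ X := hHX
          _ = X * 1 := (mul_one _).symm
          _ ≤ X * (X * δ) := by gcongr
          _ = X ^ 2 * δ := by ring
          _ ≤ X2 ^ 2 * δ := by gcongr
      linarith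
    have h2 : V ≤ B := by
      refine hVt.trans ?_
      rw [hB]
      apply mul_le_mul_of_nonneg_left _ (by positivity)
      calc X ^ (1/6 + 1/100:ℝ) ≤ X ^ (1:ℝ) := Real.rpow_le_rpow_of_exponent_le hX1' (by norm_num)
        _ = X := Real.rpow_one X
        _ ≤ X2 := hlt.le
    have h3 : 1 ≤ B ^ 3 * G := by
      have h4 : 1 / V^3 ≤ G := by
        have h5 : 1 ≤ X ^ (1/2:ℝ) := Real.one_le_rpow hX1' (by norm_num)
        have h6 : 1 / V^3 ≤ X ^ (1/2:ℝ) / V^3 := by gcongr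
        have h7 : 0 ≤ H / V^6 + H / (V^8 * δ) + 1 / (V^2 * δ) := by positivity
        rw [hG]; linarith
      have h5 : V^3 ≤ B^3 := pow_le_pow_left₀ hV0'.le h2 3
      calc (1:ℝ) = V^3 * (1 / V^3) := by field_simp
        _ ≤ B^3 * G := by gcongr
    calc (T.card : ℝ) ≤ (X2 ^ 2 + 1) * 1 := by linarith
      _ ≤ (X2 ^ 2 + 1) * (B ^ 3 * G) := by gcongr
      _ = ((X2 ^ 2 + 1) * B ^ 3) * 1 * G := by ring
      _ ≤ ((X2 ^ 2 + 1) * B ^ 3) * X ^ ε * G := by gcongr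
      _ ≤ (C + V0 ^ 8 + (X2 ^ 2 + 1) * B ^ 3) * X ^ ε * G := by
          apply mul_le_mul_of_nonneg_right _ hG0
          apply mul_le_mul_of_nonneg_right _ (by positivity)
          have : 0 ≤ V0 ^ 8 := by positivity
          linarith
  · have hge0 : X0 ≤ X := (le_max_left _ _).trans hge
    have hge1 : X1 ≤ X := (le_max_right _ _).trans hge
    rcases lt_or_ge V V0 with hVV | hVV
    · -- small V
      have h1 : H / δ + 1 ≤ V0 ^ 8 * G := by
        have h2 : V^8 ≤ V0^8 := pow_le_pow_left₀ hV0'.le hVV.le 8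
        have h3 : H / δ = V^8 * (H / (V^8 * δ)) := by field_simp
        have h4 : 1 ≤ V^8 * (1 / (V^2 * δ)) := by
          have h5 : V^8 * (1 / (V^2 * δ)) = V^6 / δ := by field_simp
          rw [h5, le_div_iff₀ hδ0]
          have : 1 ≤ V^6 := one_le_pow₀ hV
          linarith
        have h5 : V^8 * (H / (V^8 * δ) + 1 / (V^2 * δ)) ≤ V0^8 * G := by
          apply mul_le_mul h2 _ (by positivity) (by positivity)
          have : 0 ≤ H / V^6 + X ^ (1/2:ℝ) / V^3 := by positivity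
          rw [hG]; linarith
        rw [mul_add] at h5
        linarith
      calc (T.card : ℝ) ≤ V0 ^ 8 * G := htriv.trans h1
        _ = V0 ^ 8 * 1 * G := by ring
        _ ≤ V0 ^ 8 * X ^ ε * G := by gcongr
        _ ≤ (C + V0 ^ 8 + (X2 ^ 2 + 1) * B ^ 3) * X ^ ε * G := by
            apply mul_le_mul_of_nonneg_right _ hG0
            apply mul_le_mul_of_nonneg_right _ (by positivity)
            have : 0 ≤ (X2 ^ 2 + 1) * B ^ 3 := by positivity
            linarith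
    · have hVX : V ≤ X ^ (1/5:ℝ) := by
        have h1 := hX1 X hge1
        calc V ≤ 2 * Cs * X ^ (1/6 + 1/100:ℝ) := hVt
          _ = (2 * Cs * X ^ (-(7/300):ℝ)) * X ^ (1/5:ℝ) := by
              rw [mul_assoc (2 * Cs), ← Real.rpow_add hX0]; norm_num
          _ ≤ (1/2) * X ^ (1/5:ℝ) := mul_le_mul_of_nonneg_right h1 (by positivity)
          _ ≤ X ^ (1/5:ℝ) := by
              have : 0 < X ^ (1/5:ℝ) := by positivity
              linarith
      have h1 := hmain X H δ V T hge0 hH hHX hδX hδ1 hVV hVX hT hsep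
      have h2 : X ^ (min ε 1) ≤ X ^ ε := Real.rpow_le_rpow_of_exponent_le hX1' (min_le_left _ _)
      calc (T.card : ℝ) ≤ C * X ^ (min ε 1) * G := h1
        _ ≤ C * X ^ ε * G := by gcongr
        _ ≤ (C + V0 ^ 8 + (X2 ^ 2 + 1) * B ^ 3) * X ^ ε * G := by
            apply mul_le_mul_of_nonneg_right _ hG0
            apply mul_le_mul_of_nonneg_right _ (by positivity)
            have : 0 ≤ (X2 ^ 2 + 1) * B ^ 3 := by positivity
            have : 0 ≤ V0 ^ 8 := by positivity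
            linarith

end Pool.Agent.NH14.SM
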