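import Mathlib
import Pool.Agent.NH14.SM.S3

/-! Power sums over well-spaced points. -/

set_option autoImplicit false

open Finset Filter Topology
open Pool.Agent.H469R2.NK
open Pool.Agent.H425R3.MM
open Pool.Agent.H452R2
open Pool.Agent.H383
open Pool.Agent.H383.Gauss Pool.Agent.H383.AP

namespace Pool.Agent.NH14.SM

variable {E : ℝ → ℝ} {a : ℕ → ℝ} {φ : ℝ} {w : ℝ → ℂ}

/-- the right-hand side of the power sum bound -/
noncomputable def Rhs (p X H δ : ℝ) : ℝ :=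
  H / δ + H * X ^ (max 0 ((p - 6) / 6)) + X ^ (max (1/2) (p / 6)) + X ^ (max 0 ((p - 2) / 6)) / δ

lemma pow_V {c X η V s : ℝ} (hc : 1 ≤ c) (hX : 1 ≤ X) (hη : 0 ≤ η) (hV : 1 ≤ V) (hVX : V ≤ c * X ^ (1/6 + η)) (hs : s ≤ 8) :
    V ^ s ≤ c ^ 8 * X ^ (max 0 (s / 6) + 8 * η) := by
  have hX0 : 0 < X := by linarith
  have hc0 : 0 < c := by linarith
  have hV0 : 0 < V := by linarith
  have hm0 : 0 ≤ max 0 s := le_max_left _ _
  have hm8 : max 0 s ≤ 8 := max_le (by norm_num) hs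
  have e1 : max 0 (s / 6) = max 0 s / 6 := by
    rcases le_total s 0 with h | h
    · rw [max_eq_left (by linarith), max_eq_left h]; norm_num
    · rw [max_eq_right (by linarith), max_eq_right h]
  calc V ^ s ≤ V ^ (max 0 s) := Real.rpow_le_rpow_of_exponent_le hV (le_max_right _ _)
    _ ≤ (c * X ^ (1/6 + η)) ^ (max 0 s) := Real.rpow_le_rpow hV0.le hVX hm0
    _ = c ^ (max 0 s) * X ^ ((1/6 + η) * max 0 s) := by
        rw [Real.mul_rpow hc0.le (by positivity), ← Real.rpow_mul hX0.le]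
    _ ≤ c ^ 8 * X ^ (max 0 (s / 6) + 8 * η) := by
        apply mul_le_mul _ _ (by positivity) (by positivity)
        · rw [← Real.rpow_natCast]
          exact Real.rpow_le_rpow_of_exponent_le hc (by push_cast; exact hm8)
        · apply Real.rpow_le_rpow_of_exponent_le hX
          rw [e1]
          nlinarith

theorem pow_sep (ha : Win.Bdw a) (ha0 : a 0 = 0) (hw : GW.Wt w) {κ₁ κ₂ : ℝ} (hS : Win.SandW E a φ w κ₁ κ₂)
    {ε : ℝ} (hε : 0 < ε) :
    ∃ C : ℝ, 0 < C ∧ ∀ (X H δ p : ℝ) (T : Finset ℝ), 4 ≤ X → 0 ≤ H → H ≤ X → 1 / X ≤ δ → δ ≤ 1 → 0 ≤ p → p ≤ 8 →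
      (∀ t ∈ T, X ≤ t ∧ t ≤ X + H) → Sep δ T →
      ∑ t ∈ T, |E t| ^ p ≤ C * X ^ ε * Rhs p X H δ := by
  classical
  set η : ℝ := min (ε/16) (1/8) with hη
  have hη0 : 0 < η := lt_min (by positivity) (by norm_num)
  have hη1 : η ≤ 1/8 := min_le_right _ _
  have hη2 : η ≤ ε/16 := min_le_left _ _
  obtain ⟨Cs, hCs, hsup⟩ := supE ha ha0 hw hS hη0 hη1
  obtain ⟨C1, hC1, hlv⟩ := lv_sep ha ha0 hw hS (ε := ε/4) (by positivity)
  obtain ⟨CJ, hCJ, hJ⟩ := blocks (ε/4) (by positivity)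
  set c : ℝ := 2 * Cs + 1 with hc
  have hc1 : 1 ≤ c := by rw [hc]; linarith
  have hc0 : 0 < c := by linarith
  obtain ⟨n0, hn0⟩ : ∃ n : ℕ, c ≤ (2:ℝ)^n := by
    obtain ⟨n, hn⟩ := pow_unbounded_of_one_lt c (show (1:ℝ) < 2 by norm_num)
    exact ⟨n, hn.le⟩
  refine ⟨1 + (n0 + CJ) * (256 * C1 * (4 * c ^ 8)), by positivity, ?_⟩
  intro X H δ p T hX hH hHX hδX hδ1 hp0 hp8 hT hsep
  have hX0 : 0 < X := by linarith
  have hX1 : 1 ≤ X := by linarith
  have hδ0 : 0 < δ := lt_of_lt_of_le (by positivity) hδX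
  have hR0 : 0 ≤ Rhs p X H δ := by unfold Rhs; positivity
  -- sup bound
  have hM : ∀ t ∈ T, |E t| ≤ c * X ^ (1/6 + η) := by
    intro t ht
    obtain ⟨h1, h2⟩ := hT t ht
    have ht4 : 4 ≤ t := by linarith
    have ht0 : 0 < t := by linarith
    refine (hsup t t ht4 (by rw [sub_self, abs_zero]; positivity)).trans ?_
    calc Cs * t ^ (1/6 + η) ≤ Cs * (2 * X) ^ (1/6 + η) := by
          apply mul_le_mul_of_nonneg_left _ hCs.le
          exact Real.rpow_le_rpow ht0.le (by linarith) (by positivity)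
      _ = Cs * (2 ^ (1/6 + η) * X ^ (1/6 + η)) := by rw [Real.mul_rpow (by norm_num) hX0.le]
      _ ≤ Cs * (2 * X ^ (1/6 + η)) := by
          apply mul_le_mul_of_nonneg_left _ hCs.le
          apply mul_le_mul_of_nonneg_right _ (by positivity)
          calc (2:ℝ) ^ (1/6 + η) ≤ 2 ^ (1:ℝ) := Real.rpow_le_rpow_of_exponent_le (by norm_num) (by linarith)
            _ = 2 := Real.rpow_one _
      _ = (2 * Cs) * X ^ (1/6 + η) := by ring
      _ ≤ c * X ^ (1/6 + η) := by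
          apply mul_le_mul_of_nonneg_right _ (by positivity)
          rw [hc]; linarith
  obtain ⟨J, hJ1, hJX, -, hJC⟩ := hJ X hX
  have hMX : c * X ^ (1/6 + η) ≤ (2:ℝ) ^ (n0 + J) := by
    rw [pow_add]
    apply mul_le_mul hn0 _ (by positivity) (by positivity)
    calc X ^ (1/6 + η) ≤ X ^ (1:ℝ) := Real.rpow_le_rpow_of_exponent_le hX1 (by linarith)
      _ = X := Real.rpow_one X
      _ ≤ _ := hJX
  set K : ℕ := n0 + J with hK
  -- small and large
  set TS := T.filter (fun t => |E t| < 1) with hTS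
  set TL := T.filter (fun t => ¬ |E t| < 1) with hTL
  have hsplit : ∑ t ∈ T, |E t| ^ p = ∑ t ∈ TS, |E t| ^ p + ∑ t ∈ TL, |E t| ^ p := (sum_filter_add_sum_filter_not _ _ _).symm
  have hsmall : ∑ t ∈ TS, |E t| ^ p ≤ H / δ + 1 := by
    have h1 : ∑ t ∈ TS, |E t| ^ p ≤ ∑ t ∈ TS, 1 := by
      apply sum_le_sum
      intro t ht
      rw [hTS, mem_filter] at ht
      exact Real.rpow_le_one (abs_nonneg _) ht.2.le hp0
    rw [sum_const, nsmul_eq_mul, mul_one] at h1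
    refine h1.trans ?_
    exact card_sep hδ0 hH (hsep.subset (filter_subset _ _)) (fun t ht => hT t (filter_subset _ _ ht))
  -- level sets
  set fk : ℝ → ℕ := fun t => Nat.log 2 ⌊|E t|⌋₊ with hfk
  have hlev : ∀ t ∈ TL, (2:ℝ) ^ (fk t) ≤ |E t| ∧ |E t| < 2 ^ (fk t + 1) := by
    intro t ht
    rw [hTL, mem_filter, not_lt] at ht
    have h1 : 1 ≤ ⌊|E t|⌋₊ := by rw [Nat.one_le_floor_iff]; exact ht.2
    have h2 : 2 ^ (fk t) ≤ ⌊|E t|⌋₊ := Nat.pow_log_le_self 2 (by omega)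
    have h3 : ⌊|E t|⌋₊ < 2 ^ (fk t + 1) := Nat.lt_pow_succ_log_self (by norm_num) _
    have h4 := Nat.floor_le (abs_nonneg (E t))
    constructor
    · have : ((2 ^ (fk t) : ℕ) : ℝ) ≤ (⌊|E t|⌋₊ : ℝ) := by exact_mod_cast h2
      push_cast at this
      linarith
    · have h5 : ⌊|E t|⌋₊ + 1 ≤ 2 ^ (fk t + 1) := h3
      have : ((⌊|E t|⌋₊ : ℝ) + 1) ≤ ((2 ^ (fk t + 1) : ℕ) : ℝ) := by exact_mod_cast h5
      push_cast at this
      have := Nat.lt_floor_add_one |E t|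
      linarith
  have hmaps : ∀ t ∈ TL, fk t ∈ range K := by
    intro t ht
    rw [mem_range]
    by_contra hcon
    rw [not_lt] at hcon
    have h1 := (hlev t ht).1
    have h2 := hM t (filter_subset _ _ ht)
    have h3 : (2:ℝ)^K ≤ 2 ^ (fk t) := pow_le_pow_right₀ (by norm_num) hcon
    have ht' := ht
    -- equality case: need strictness
    have h4 : |E t| = 2 ^ K := le_antisymm (h2.trans hMX) (h3.trans h1)
    have h5 : X ^ (1/6 + η) < X := by
      calc X ^ (1/6 + η) < X ^ (1:ℝ) := Real.rpow_lt_rpow_of_exponent_lt (by linarith) (by linarith)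
        _ = X := Real.rpow_one X
    have h6 : c * X ^ (1/6 + η) < (2:ℝ) ^ K := by
      rw [hK, pow_add]
      calc c * X ^ (1/6 + η) < c * X := by gcongr
        _ ≤ _ := by gcongr
    linarith
  have hlarge : ∑ t ∈ TL, |E t| ^ p ≤ (K:ℝ) * (256 * C1 * (4 * c ^ 8) * X ^ (ε/4 + ε/2) * Rhs p X H δ) := by
    have h1 : ∑ t ∈ TL, |E t| ^ p = ∑ k ∈ range K, ∑ t ∈ TL.filter (fun t => fk t = k), |E t| ^ p :=
      (sum_fiberwise_of_maps_to hmaps _).symm
    rw [h1]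
    have h2 : ∀ k ∈ range K, ∑ t ∈ TL.filter (fun t => fk t = k), |E t| ^ p ≤
        256 * C1 * (4 * c ^ 8) * X ^ (ε/4 + ε/2) * Rhs p X H δ := by
      intro k hk
      set Tk := TL.filter (fun t => fk t = k) with hTk
      rcases Tk.eq_empty_or_nonempty with hemp | ⟨t0, ht0⟩
      · rw [hemp, sum_empty]; positivity
      set V : ℝ := (2:ℝ)^k with hV
      have hV1 : 1 ≤ V := one_le_pow₀ (by norm_num)
      have hV0 : 0 < V := by linarith
      have hTkT : ∀ t ∈ Tk, t ∈ T ∧ V ≤ |E t| ∧ |E t| ≤ 2 * V := by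
        intro t ht
        rw [hTk, mem_filter] at ht
        obtain ⟨g1, g2⟩ := hlev t ht.1
        rw [ht.2] at g1 g2
        refine ⟨filter_subset _ _ ht.1, g1, ?_⟩
        rw [pow_succ] at g2
        linarith
      have hVc : V ≤ c * X ^ (1/6 + η) := (hTkT t0 ht0).2.1.trans (hM t0 (hTkT t0 ht0).1)
      have hcount := hlv X H δ V Tk hX hH hHX hδX hδ1 hV1 (fun t ht => ⟨hT t (hTkT t ht).1, (hTkT t ht).2.1⟩)
        (hsep.subset (fun t ht => (hTkT t ht).1))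
      have h3 : ∑ t ∈ Tk, |E t| ^ p ≤ Tk.card * (256 * V ^ p) := by
        rw [← nsmul_eq_mul]
        apply sum_le_card_nsmul
        intro t ht
        calc |E t| ^ p ≤ (2 * V) ^ p := Real.rpow_le_rpow (abs_nonneg _) (hTkT t ht).2.2 hp0
          _ = 2 ^ p * V ^ p := Real.mul_rpow (by norm_num) hV0.le
          _ ≤ 256 * V ^ p := by
              apply mul_le_mul_of_nonneg_right _ (by positivity)
              calc (2:ℝ) ^ p ≤ 2 ^ (8:ℝ) := Real.rpow_le_rpow_of_exponent_le (by norm_num) hp8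
                _ = 256 := by norm_num
      have hX8 : X ^ (8 * η) ≤ X ^ (ε/2) := Real.rpow_le_rpow_of_exponent_le hX1 (by linarith)
      have hX80 : 1 ≤ X ^ (ε/2) := Real.one_le_rpow hX1 (by positivity)
      have hc8 : 1 ≤ c ^ 8 := one_le_pow₀ hc1
      have u1 : V ^ p * (H / V^6) ≤ c ^ 8 * X ^ (ε/2) * (H * X ^ (max 0 ((p - 6) / 6))) := by
        have e1 : V ^ p * (H / V^6) = H * V ^ (p - 6) := by
          rw [Real.rpow_sub hV0, show (6:ℝ) = ((6:ℕ):ℝ) by norm_num, Real.rpow_natCast]; ring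
        have e2 := pow_V hc1 hX1 hη0.le hV1 hVc (s := p - 6) (by linarith)
        rw [Real.rpow_add hX0] at e2
        rw [e1]
        calc H * V ^ (p - 6) ≤ H * (c ^ 8 * (X ^ (max 0 ((p - 6) / 6)) * X ^ (8 * η))) := by gcongr
          _ ≤ H * (c ^ 8 * (X ^ (max 0 ((p - 6) / 6)) * X ^ (ε/2))) := by gcongr
          _ = _ := by ring
      have u2 : V ^ p * (H / (V^8 * δ)) ≤ c ^ 8 * X ^ (ε/2) * (H / δ) := by
        have e1 : V ^ p * (H / (V^8 * δ)) = (H / δ) * V ^ (p - 8) := by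
          rw [Real.rpow_sub hV0, show (8:ℝ) = ((8:ℕ):ℝ) by norm_num, Real.rpow_natCast]; field_simp
        have e2 : V ^ (p - 8) ≤ 1 := Real.rpow_le_one_of_one_le_of_nonpos hV1 (by linarith)
        rw [e1]
        calc (H / δ) * V ^ (p - 8) ≤ (H / δ) * 1 := by gcongr
          _ = 1 * 1 * (H / δ) := by ring
          _ ≤ c ^ 8 * X ^ (ε/2) * (H / δ) := by gcongr
      have u3 : V ^ p * (X ^ (1/2:ℝ) / V^3) ≤ c ^ 8 * X ^ (ε/2) * X ^ (max (1/2) (p / 6)) := by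
        have e1 : V ^ p * (X ^ (1/2:ℝ) / V^3) = X ^ (1/2:ℝ) * V ^ (p - 3) := by
          rw [Real.rpow_sub hV0, show (3:ℝ) = ((3:ℕ):ℝ) by norm_num, Real.rpow_natCast]; ring
        have e2 := pow_V hc1 hX1 hη0.le hV1 hVc (s := p - 3) (by linarith)
        rw [Real.rpow_add hX0] at e2
        have e3 : (1/2:ℝ) + max 0 ((p - 3) / 6) = max (1/2) (p / 6) := by
          rcases le_total p 3 with h | h
          · rw [max_eq_left (by linarith), max_eq_left (by linarith)]; norm_num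
          · rw [max_eq_right (by linarith), max_eq_right (by linarith)]; ring
        rw [e1, ← e3, Real.rpow_add hX0]
        calc X ^ (1/2:ℝ) * V ^ (p - 3) ≤ X ^ (1/2:ℝ) * (c ^ 8 * (X ^ (max 0 ((p - 3) / 6)) * X ^ (8 * η))) := by gcongr
          _ ≤ X ^ (1/2:ℝ) * (c ^ 8 * (X ^ (max 0 ((p - 3) / 6)) * X ^ (ε/2))) := by gcongr
          _ = _ := by ring
      have u4 : V ^ p * (1 / (V^2 * δ)) ≤ c ^ 8 * X ^ (ε/2) * (X ^ (max 0 ((p - 2) / 6)) / δ) := by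
        have e1 : V ^ p * (1 / (V^2 * δ)) = V ^ (p - 2) / δ := by
          rw [Real.rpow_sub hV0, show (2:ℝ) = ((2:ℕ):ℝ) by norm_num, Real.rpow_natCast]; field_simp
        have e2 := pow_V hc1 hX1 hη0.le hV1 hVc (s := p - 2) (by linarith)
        rw [Real.rpow_add hX0] at e2
        rw [e1]
        calc V ^ (p - 2) / δ ≤ (c ^ 8 * (X ^ (max 0 ((p - 2) / 6)) * X ^ (8 * η))) / δ := by gcongr
          _ ≤ (c ^ 8 * (X ^ (max 0 ((p - 2) / 6)) * X ^ (ε/2))) / δ := by gcongr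
          _ = _ := by ring
      have hu : V ^ p * (H / V^6 + H / (V^8 * δ) + X ^ (1/2:ℝ) / V^3 + 1 / (V^2 * δ)) ≤
          c ^ 8 * X ^ (ε/2) * Rhs p X H δ := by
        unfold Rhs
        rw [mul_add, mul_add, mul_add]
        have e1 : c ^ 8 * X ^ (ε/2) * (H / δ + H * X ^ (max 0 ((p - 6) / 6)) + X ^ (max (1/2) (p / 6)) +
            X ^ (max 0 ((p - 2) / 6)) / δ) = c ^ 8 * X ^ (ε/2) * (H * X ^ (max 0 ((p - 6) / 6))) +
            c ^ 8 * X ^ (ε/2) * (H / δ) + c ^ 8 * X ^ (ε/2) * X ^ (max (1/2) (p / 6)) +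
            c ^ 8 * X ^ (ε/2) * (X ^ (max 0 ((p - 2) / 6)) / δ) := by ring
        rw [e1]
        linarith
      calc ∑ t ∈ Tk, |E t| ^ p ≤ Tk.card * (256 * V ^ p) := h3
        _ ≤ (C1 * X ^ (ε/4) * (H / V^6 + H / (V^8 * δ) + X ^ (1/2:ℝ) / V^3 + 1 / (V^2 * δ))) * (256 * V ^ p) := by gcongr
        _ = 256 * C1 * X ^ (ε/4) * (V ^ p * (H / V^6 + H / (V^8 * δ) + X ^ (1/2:ℝ) / V^3 + 1 / (V^2 * δ))) := by ring
        _ ≤ 256 * C1 * X ^ (ε/4) * (c ^ 8 * X ^ (ε/2) * Rhs p X H δ) := by gcongr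
        _ = 256 * C1 * (1 * c ^ 8) * X ^ (ε/4 + ε/2) * Rhs p X H δ := by rw [Real.rpow_add hX0]; ring
        _ ≤ 256 * C1 * (4 * c ^ 8) * X ^ (ε/4 + ε/2) * Rhs p X H δ := by gcongr; norm_num
    refine (sum_le_sum h2).trans ?_
    rw [sum_const, card_range, nsmul_eq_mul]
  have hKb : (K:ℝ) ≤ (n0 + CJ) * X ^ (ε/4) := by
    have h1 : 1 ≤ X ^ (ε/4) := Real.one_le_rpow hX1 (by positivity)
    have h2 : (J:ℝ) ≤ 2 * J := by
      have : (0:ℝ) ≤ J := Nat.cast_nonneg J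
      linarith
    rw [hK]; push_cast
    have h3 : (n0:ℝ) * 1 ≤ n0 * X ^ (ε/4) := mul_le_mul_of_nonneg_left h1 (Nat.cast_nonneg _)
    nlinarith
  have hXε : 1 ≤ X ^ ε := Real.one_le_rpow hX1 hε.le
  have hsR : H / δ + 1 ≤ Rhs p X H δ := by
    unfold Rhs
    have h1 : 1 ≤ X ^ (max (1/2) (p / 6)) := Real.one_le_rpow hX1 (le_trans (by norm_num) (le_max_left _ _))
    have h2 : 0 ≤ H * X ^ (max 0 ((p - 6) / 6)) := by positivity
    have h3 : 0 ≤ X ^ (max 0 ((p - 2) / 6)) / δ := by positivity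
    linarith
  rw [hsplit]
  calc ∑ t ∈ TS, |E t| ^ p + ∑ t ∈ TL, |E t| ^ p
      ≤ 1 * Rhs p X H δ + (K:ℝ) * (256 * C1 * (4 * c ^ 8) * X ^ (ε/4 + ε/2) * Rhs p X H δ) := by
        rw [one_mul]
        exact add_le_add (hsmall.trans hsR) hlarge
    _ ≤ X ^ ε * Rhs p X H δ + ((n0 + CJ) * X ^ (ε/4)) * (256 * C1 * (4 * c ^ 8) * X ^ (ε/4 + ε/2) * Rhs p X H δ) := by gcongr
    _ = X ^ ε * Rhs p X H δ + (n0 + CJ) * (256 * C1 * (4 * c ^ 8)) * (X ^ (ε/4) * X ^ (ε/4 + ε/2)) * Rhs p X H δ := by ring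
    _ = _ := by rw [← Real.rpow_add hX0, show ε/4 + (ε/4 + ε/2) = ε by ring]; ring

end Pool.Agent.NH14.SM
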