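import Mathlib
import Pool.Agent.NH14.SM.S4

/-! Local maxima: power sums over one point from each unit interval. -/

set_option autoImplicit false

open Finset Filter Topology
open Pool.Agent.H469R2.NK
open Pool.Agent.H425R3.MM
open Pool.Agent.H452R2
open Pool.Agent.H383
open Pool.Agent.H383.Gauss Pool.Agent.H383.AP

namespace Pool.Agent.NH14.SM

variable {E : ℝ → ℝ} {a : ℕ → ℝ} {φ : ℝ} {w : ℝ → ℂ}

/-- one point from each unit interval -/
theorem locmax (ha : Win.Bdw a) (ha0 : a 0 = 0) (hw : GW.Wt w) {κ₁ κ₂ : ℝ} (hS : Win.SandW E a φ w κ₁ κ₂)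
    {ε lam : ℝ} (hε : 0 < ε) (hlam1 : 1 ≤ lam) (hlam2 : lam ≤ 2) :
    ∃ C : ℝ, 0 < C ∧ ∀ (m N : ℕ) (p : ℝ) (τ : ℕ → ℝ), 4 ≤ m → N ≤ m → 0 ≤ p → p ≤ 6 →
      (∀ n : ℕ, (n:ℝ) ≤ τ n ∧ τ n ≤ n + 1) →
      ∑ n ∈ Ico m (m + N), |E (lam * τ n)| ^ p ≤ C * (m:ℝ) ^ ε * (N + (m:ℝ) ^ (max (1/2) (p / 6))) := by
  classical
  obtain ⟨C, hC, h⟩ := pow_sep ha ha0 hw hS hε
  refine ⟨2 * (C * 2 ^ ε * 8), by positivity, ?_⟩
  intro m N p τ hm hNm hp0 hp6 hτ
  have hm4 : (4:ℝ) ≤ m := by exact_mod_cast hm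
  have hm0 : (0:ℝ) < m := by linarith
  have hm1 : (1:ℝ) ≤ m := by linarith
  have hN0 : (0:ℝ) ≤ N := Nat.cast_nonneg N
  have hNm' : (N:ℝ) ≤ m := by exact_mod_cast hNm
  have hlam0 : 0 < lam := by linarith
  have hX4 : 4 ≤ lam * m := by nlinarith
  have hclass : ∀ r : ℕ, ∑ n ∈ (Ico m (m + N)).filter (fun n => n % 2 = r), |E (lam * τ n)| ^ p ≤
      (C * 2 ^ ε * 8) * (m:ℝ) ^ ε * (N + (m:ℝ) ^ (max (1/2) (p / 6))) := by
    intro r
    set S := (Ico m (m + N)).filter (fun n => n % 2 = r) with hS'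
    have hgap : ∀ n ∈ S, ∀ n' ∈ S, n < n' → lam * τ n + 1 ≤ lam * τ n' := by
      intro n hn n' hn' hlt
      rw [hS', mem_filter] at hn hn'
      have h2 : n + 2 ≤ n' := by omega
      have h3 : (n:ℝ) + 2 ≤ n' := by exact_mod_cast h2
      have h4 := (hτ n).2
      have h5 := (hτ n').1
      have h6 : τ n + 1 ≤ τ n' := by linarith
      nlinarith
    have hinj : Set.InjOn (fun n => lam * τ n) S := by
      intro n hn n' hn' he
      simp only at he
      rcases lt_trichotomy n n' with hlt | heq | hlt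
      · have := hgap n hn n' hn' hlt; linarith
      · exact heq
      · have := hgap n' hn' n hn hlt; linarith
    set T := S.image (fun n => lam * τ n) with hT
    have hsep : Sep 1 T := by
      intro x hx y hy hxy
      rw [hT, mem_image] at hx hy
      obtain ⟨n, hn, rfl⟩ := hx
      obtain ⟨n', hn', rfl⟩ := hy
      have hne : n ≠ n' := fun h => hxy (by rw [h])
      rcases lt_or_gt_of_ne hne with hlt | hlt
      · have := hgap n hn n' hn' hlt
        rw [abs_sub_comm]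
        refine le_trans ?_ (le_abs_self _)
        linarith
      · have := hgap n' hn' n hn hlt
        refine le_trans ?_ (le_abs_self _)
        linarith
    have hrange : ∀ t ∈ T, lam * m ≤ t ∧ t ≤ lam * m + lam * N := by
      intro t ht
      rw [hT, mem_image] at ht
      obtain ⟨n, hn, rfl⟩ := ht
      rw [hS', mem_filter, mem_Ico] at hn
      have h1 : (m:ℝ) ≤ n := by exact_mod_cast hn.1.1
      have h2 : (n:ℝ) + 1 ≤ m + N := by exact_mod_cast hn.1.2
      have h4 := (hτ n).2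
      have h5 := (hτ n).1
      constructor
      · exact mul_le_mul_of_nonneg_left (by linarith) hlam0.le
      · rw [← mul_add]
        exact mul_le_mul_of_nonneg_left (by linarith) hlam0.le
    have hδ : 1 / (lam * m) ≤ 1 := by
      rw [div_le_one (by positivity)]
      linarith
    have key := h (lam * m) (lam * N) 1 p T hX4 (by positivity) (mul_le_mul_of_nonneg_left hNm' hlam0.le) hδ le_rfl hp0
      (by linarith) hrange hsep
    have e1 : ∑ t ∈ T, |E t| ^ p = ∑ n ∈ S, |E (lam * τ n)| ^ p := by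
      rw [hT, sum_image hinj]
    rw [e1] at key
    refine key.trans ?_
    have i1 : (lam * (m:ℝ)) ^ ε ≤ 2 ^ ε * (m:ℝ) ^ ε := by
      rw [Real.mul_rpow hlam0.le hm0.le]
      apply mul_le_mul_of_nonneg_right _ (by positivity)
      exact Real.rpow_le_rpow hlam0.le hlam2 hε.le
    have hpw : ∀ s : ℝ, 0 ≤ s → s ≤ 1 → (lam * (m:ℝ)) ^ s ≤ 2 * (m:ℝ) ^ s := by
      intro s hs0 hs1
      rw [Real.mul_rpow hlam0.le hm0.le]
      apply mul_le_mul_of_nonneg_right _ (by positivity)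
      calc lam ^ s ≤ 2 ^ s := Real.rpow_le_rpow hlam0.le hlam2 hs0
        _ ≤ 2 ^ (1:ℝ) := Real.rpow_le_rpow_of_exponent_le (by norm_num) hs1
        _ = 2 := Real.rpow_one 2
    have i2 : Rhs p (lam * m) (lam * N) 1 ≤ 8 * (N + (m:ℝ) ^ (max (1/2) (p / 6))) := by
      unfold Rhs
      rw [div_one, div_one, max_eq_left (a := (0:ℝ)) (b := (p - 6) / 6) (by linarith), Real.rpow_zero, mul_one]
      have j1 : lam * (N:ℝ) ≤ 2 * N := mul_le_mul_of_nonneg_right hlam2 hN0
      have hmax1 : max (1/2) (p / 6) ≤ 1 := max_le (by norm_num) (by linarith)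
      have hmax0 : 0 ≤ max (1/2) (p / 6) := le_trans (by norm_num) (le_max_left _ _)
      have j2 := hpw (max (1/2) (p / 6)) hmax0 hmax1
      have hm2 : max 0 ((p - 2) / 6) ≤ max (1/2) (p / 6) := max_le_max (by norm_num) (by linarith)
      have j3 := hpw (max 0 ((p - 2) / 6)) (le_max_left _ _) (hm2.trans hmax1)
      have j4 : (m:ℝ) ^ (max 0 ((p - 2) / 6)) ≤ (m:ℝ) ^ (max (1/2) (p / 6)) := Real.rpow_le_rpow_of_exponent_le hm1 hm2
      have j5 : 0 ≤ (m:ℝ) ^ (max (1/2) (p / 6)) := by positivity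
      linarith
    have hR0 : 0 ≤ Rhs p (lam * m) (lam * N) 1 := by unfold Rhs; positivity
    calc C * (lam * (m:ℝ)) ^ ε * Rhs p (lam * m) (lam * N) 1
        ≤ C * (2 ^ ε * (m:ℝ) ^ ε) * (8 * (N + (m:ℝ) ^ (max (1/2) (p / 6)))) := by gcongr
      _ = _ := by ring
  have hsplit : ∑ n ∈ Ico m (m + N), |E (lam * τ n)| ^ p =
      ∑ r ∈ range 2, ∑ n ∈ (Ico m (m + N)).filter (fun n => n % 2 = r), |E (lam * τ n)| ^ p := by
    symm
    apply sum_fiberwise_of_maps_to
    intro n _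
    rw [mem_range]
    exact Nat.mod_lt _ (by norm_num)
  rw [hsplit]
  refine (sum_le_sum (fun r _ => hclass r)).trans (le_of_eq ?_)
  rw [sum_const, card_range, nsmul_eq_mul]
  push_cast
  ring

end Pool.Agent.NH14.SM
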