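import Mathlib
import Pool.Agent.NH14.SM.S5
import Pool.Agent.H425R3.JL.F3

/-! Transfer to the error terms of the circle and divisor problems. -/

set_option autoImplicit false

open Finset Filter Topology
open Pool.Agent.H387R2.Vor
open Pool.Agent.H383.AP Pool.Agent.H383.Gauss Pool.Agent.H383.Gen Pool.Agent.H383.Div Pool.Agent.H383.Circ
open Pool.Agent.H452R2 Pool.Agent.H452R2.Win
open Pool.Agent.H383

namespace Pool.Agent.NH14.SM

lemma sqrt_rpow_le {X t p : ℝ} (hX : 0 < X) (ht0 : 0 ≤ t) (ht : t ≤ 2 * X) (hp0 : 0 ≤ p) (hp8 : p ≤ 8) :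
    (√t) ^ p ≤ 16 * X ^ (p / 2) := by
  rw [Real.sqrt_eq_rpow, ← Real.rpow_mul ht0]
  have e : 1 / 2 * p = p / 2 := by ring
  rw [e]
  calc t ^ (p / 2) ≤ (2 * X) ^ (p / 2) := Real.rpow_le_rpow ht0 ht (by positivity)
    _ = 2 ^ (p / 2) * X ^ (p / 2) := Real.mul_rpow (by norm_num) hX.le
    _ ≤ 16 * X ^ (p / 2) := by
        apply mul_le_mul_of_nonneg_right _ (by positivity)
        calc (2:ℝ) ^ (p / 2) ≤ 2 ^ (4:ℝ) := Real.rpow_le_rpow_of_exponent_le (by norm_num) (by linarith)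
          _ = 16 := by norm_num

/-- the circle problem -/
theorem circ_sep {P : ℝ → ℝ} (hP : ∀ t : ℝ, 0 < t → En t = P t / √t) {ε : ℝ} (hε : 0 < ε) : ∃ C : ℝ, 0 < C ∧
    (∀ (X H δ : ℝ) (T : Finset ℝ), 4 ≤ X → 0 ≤ H → H ≤ X → 1 / X ≤ δ → δ ≤ 1 → (∀ t ∈ T, X ≤ t ∧ t ≤ X + H) → Sep δ T →
      (∀ V : ℝ, 1 ≤ V → (∀ t ∈ T, V * √t ≤ |P t|) →
        (T.card : ℝ) ≤ C * X ^ ε * (H / V^6 + H / (V^8 * δ) + X ^ (1/2:ℝ) / V^3 + 1 / (V^2 * δ))) ∧
      (∀ p : ℝ, 0 ≤ p → p ≤ 8 → ∑ t ∈ T, |P t| ^ p ≤ C * X ^ (p / 2 + ε) * Rhs p X H δ)) ∧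
    (∀ (m N : ℕ) (p : ℝ) (τ : ℕ → ℝ), 4 ≤ m → N ≤ m → 0 ≤ p → p ≤ 6 → (∀ n : ℕ, (n:ℝ) ≤ τ n ∧ τ n ≤ n + 1) →
      ∑ n ∈ Ico m (m + N), |P (τ n)| ^ p ≤ C * (m:ℝ) ^ (p / 2 + ε) * (N + (m:ℝ) ^ (max (1/2) (p / 6)))) := by
  obtain ⟨C1, hC1, h1⟩ := lv_sep (E := En) ag_Bdw ag_zero wg_Wt En_SandW hε
  obtain ⟨C2, hC2, h2⟩ := pow_sep (E := En) ag_Bdw ag_zero wg_Wt En_SandW hε
  obtain ⟨C3, hC3, h3⟩ := locmax (E := En) ag_Bdw ag_zero wg_Wt En_SandW (lam := 1) hε le_rfl (by norm_num)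
  have habs : ∀ t : ℝ, 0 < t → |P t| = √t * |En t| := by
    intro t ht
    have hs : 0 < √t := Real.sqrt_pos.mpr ht
    rw [hP t ht, abs_div, abs_of_pos hs]
    field_simp
  refine ⟨C1 + 16 * C2 + 16 * C3, by positivity, ?_, ?_⟩
  · intro X H δ T hX hH hHX hδX hδ1 hT hsep
    have hX0 : 0 < X := by linarith
    have hδ0 : 0 < δ := lt_of_lt_of_le (by positivity) hδX
    constructor
    · intro V hV hVT
      have key := h1 X H δ V T hX hH hHX hδX hδ1 hV (fun t ht => ⟨hT t ht, by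
        have ht0 : 0 < t := by linarith [(hT t ht).1]
        have hs : 0 < √t := Real.sqrt_pos.mpr ht0
        have h4 := hVT t ht
        rw [habs t ht0, mul_comm V] at h4
        exact le_of_mul_le_mul_left h4 hs⟩) hsep
      refine key.trans ?_
      apply mul_le_mul_of_nonneg_right _ (by positivity)
      apply mul_le_mul_of_nonneg_right _ (by positivity)
      linarith
    · intro p hp0 hp8
      have key := h2 X H δ p T hX hH hHX hδX hδ1 hp0 hp8 hT hsep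
      have hR0 : 0 ≤ Rhs p X H δ := by unfold Rhs; positivity
      calc ∑ t ∈ T, |P t| ^ p ≤ ∑ t ∈ T, 16 * X ^ (p / 2) * |En t| ^ p := by
            apply sum_le_sum
            intro t ht
            obtain ⟨g1, g2⟩ := hT t ht
            have ht0 : 0 < t := by linarith
            rw [habs t ht0, Real.mul_rpow (Real.sqrt_nonneg _) (abs_nonneg _)]
            apply mul_le_mul_of_nonneg_right _ (by positivity)
            exact sqrt_rpow_le hX0 ht0.le (by linarith) hp0 hp8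
        _ = 16 * X ^ (p / 2) * ∑ t ∈ T, |En t| ^ p := by rw [mul_sum]
        _ ≤ 16 * X ^ (p / 2) * (C2 * X ^ ε * Rhs p X H δ) := by gcongr
        _ = (16 * C2) * (X ^ (p / 2) * X ^ ε) * Rhs p X H δ := by ring
        _ = (16 * C2) * X ^ (p / 2 + ε) * Rhs p X H δ := by rw [← Real.rpow_add hX0]
        _ ≤ _ := by
            apply mul_le_mul_of_nonneg_right _ hR0
            apply mul_le_mul_of_nonneg_right _ (by positivity)
            linarith
  · intro m N p τ hm hNm hp0 hp6 hτ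
    have key := h3 m N p τ hm hNm hp0 hp6 hτ
    have hm4 : (4:ℝ) ≤ m := by exact_mod_cast hm
    have hm0 : (0:ℝ) < m := by linarith
    have hN0 : (0:ℝ) ≤ N := Nat.cast_nonneg N
    have hNm' : (N:ℝ) ≤ m := by exact_mod_cast hNm
    have hR0 : 0 ≤ (N:ℝ) + (m:ℝ) ^ (max (1/2) (p / 6)) := by positivity
    calc ∑ n ∈ Ico m (m + N), |P (τ n)| ^ p ≤ ∑ n ∈ Ico m (m + N), 16 * (m:ℝ) ^ (p / 2) * |En (1 * τ n)| ^ p := by
          apply sum_le_sum
          intro n hn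
          rw [mem_Ico] at hn
          have g1 : (m:ℝ) ≤ n := by exact_mod_cast hn.1
          have g2 : (n:ℝ) + 1 ≤ m + N := by exact_mod_cast hn.2
          obtain ⟨g3, g4⟩ := hτ n
          have ht0 : 0 < τ n := by linarith
          rw [one_mul, habs _ ht0, Real.mul_rpow (Real.sqrt_nonneg _) (abs_nonneg _)]
          apply mul_le_mul_of_nonneg_right _ (by positivity)
          exact sqrt_rpow_le hm0 ht0.le (by linarith) hp0 (by linarith)
      _ = 16 * (m:ℝ) ^ (p / 2) * ∑ n ∈ Ico m (m + N), |En (1 * τ n)| ^ p := by rw [mul_sum]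
      _ ≤ 16 * (m:ℝ) ^ (p / 2) * (C3 * (m:ℝ) ^ ε * (N + (m:ℝ) ^ (max (1/2) (p / 6)))) := by gcongr
      _ = (16 * C3) * ((m:ℝ) ^ (p / 2) * (m:ℝ) ^ ε) * (N + (m:ℝ) ^ (max (1/2) (p / 6))) := by ring
      _ = (16 * C3) * (m:ℝ) ^ (p / 2 + ε) * (N + (m:ℝ) ^ (max (1/2) (p / 6))) := by rw [← Real.rpow_add hm0]
      _ ≤ _ := by
          apply mul_le_mul_of_nonneg_right _ hR0
          apply mul_le_mul_of_nonneg_right _ (by positivity)
          linarith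

end Pool.Agent.NH14.SM
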