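import Mathlib
import Pool.Agent.NH14.SM.S6

/-! Transfer to the divisor problem. -/

set_option autoImplicit false

open Finset Filter Topology
open Pool.Agent.H387R2.Vor
open Pool.Agent.H383.AP Pool.Agent.H383.Gauss Pool.Agent.H383.Gen Pool.Agent.H383.Div Pool.Agent.H383.Circ
open Pool.Agent.H452R2 Pool.Agent.H452R2.Win
open Pool.Agent.H383

namespace Pool.Agent.NH14.SM

/-- the divisor problem -/
theorem div_sep {ε : ℝ} (hε : 0 < ε) : ∃ C : ℝ, 0 < C ∧
    (∀ (Y K δ : ℝ) (S : Finset ℝ), 4 ≤ Y → 0 ≤ K → K ≤ Y → 1 / √Y ≤ δ → δ ≤ 1 → (∀ x ∈ S, Y ≤ x ∧ x ≤ Y + K) →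
      (∀ x ∈ S, ∀ y ∈ S, x ≠ y → δ * √Y ≤ |x - y|) →
      (∀ V : ℝ, 1 ≤ V → (∀ x ∈ S, V * x ^ (1/4:ℝ) ≤ |Dx x|) →
        (S.card : ℝ) ≤ C * Y ^ ε * (K / (√Y * V^6) + K / (√Y * V^8 * δ) + Y ^ (1/4:ℝ) / V^3 + 1 / (V^2 * δ))) ∧
      (∀ p : ℝ, 0 ≤ p → p ≤ 8 → ∑ x ∈ S, |Dx x| ^ p ≤ C * Y ^ (p / 4 + ε) *
        (K / (√Y * δ) + K / √Y * Y ^ (max 0 ((p - 6) / 12)) + Y ^ (max (1/4) (p / 12)) + Y ^ (max 0 ((p - 2) / 12)) / δ))) ∧
    (∀ (m N : ℕ) (p : ℝ) (ξ : ℕ → ℝ), 4 ≤ m → N ≤ m → 0 ≤ p → p ≤ 6 → (∀ n : ℕ, (n:ℝ)^2 ≤ ξ n ∧ ξ n ≤ (n + 1)^2) →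
      ∑ n ∈ Ico m (m + N), |Dx (ξ n)| ^ p ≤ C * (m:ℝ) ^ (p / 2 + ε) * (N + (m:ℝ) ^ (max (1/2) (p / 6)))) := by
  classical
  obtain ⟨C1, hC1, h1⟩ := lv_sep (E := E2) ad_Bdw2 ad_zero wd_Wt (E2_SandW vor) hε
  obtain ⟨C2, hC2, h2⟩ := pow_sep (E := E2) ad_Bdw2 ad_zero wd_Wt (E2_SandW vor) hε
  obtain ⟨C3, hC3, h3⟩ := locmax (E := E2) ad_Bdw2 ad_zero wd_Wt (E2_SandW vor) (lam := 2) hε (by norm_num) le_rfl
  have hE : ∀ x : ℝ, 0 ≤ x → E2 (2 * √x) = Dx x / x ^ (1/4:ℝ) := by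
    intro x hx
    rw [← Ed_quad hx]
    unfold E2
    congr 1
    ring
  have habs : ∀ x : ℝ, 0 < x → |Dx x| = x ^ (1/4:ℝ) * |E2 (2 * √x)| := by
    intro x hx
    have hs : 0 < x ^ (1/4:ℝ) := by positivity
    rw [hE x hx.le, abs_div, abs_of_pos hs]
    field_simp
  refine ⟨4 * 2 ^ ε * C1 + 64 * 2 ^ ε * C2 + 16 * C3, by positivity, ?_, ?_⟩
  · intro Y K δ S hY hK hKY hδY hδ1 hS hsep
    have hY0 : 0 < Y := by linarith
    have hY1 : 1 ≤ Y := by linarith
    set s : ℝ := √Y with hs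
    have hs2 : 2 ≤ s := by
      rw [hs, show (2:ℝ) = √4 by rw [show (4:ℝ) = 2^2 by norm_num, Real.sqrt_sq (by norm_num)]]
      exact Real.sqrt_le_sqrt hY
    have hs0 : 0 < s := by linarith
    have hss : s * s = Y := Real.mul_self_sqrt hY0.le
    have hδ0 : 0 < δ := lt_of_lt_of_le (by positivity) hδY
    set X : ℝ := 2 * s with hX
    have hX4 : 4 ≤ X := by rw [hX]; linarith
    have hX0 : 0 < X := by linarith
    set H : ℝ := K / s with hH
    have hH0 : 0 ≤ H := by positivity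
    have hHX : H ≤ X := by
      rw [hH, hX, div_le_iff₀ hs0]
      nlinarith
    have hδ' : 1 / X ≤ δ / 2 := by
      rw [hX]
      have : 1 / (2 * s) = (1 / s) / 2 := by field_simp
      rw [this]
      linarith
    have hδ'1 : δ / 2 ≤ 1 := by linarith
    set T : Finset ℝ := S.image (fun x => 2 * √x) with hT
    have hxS : ∀ x ∈ S, 0 < x ∧ s ≤ √x ∧ √x * √x = x ∧ √x ≤ 3/2 * s := by
      intro x hx
      obtain ⟨g1, g2⟩ := hS x hx
      have hx0 : 0 < x := by linarith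
      refine ⟨hx0, Real.sqrt_le_sqrt g1, Real.mul_self_sqrt hx0.le, ?_⟩
      rw [Real.sqrt_le_left (by positivity)]
      nlinarith
    have hinj : Set.InjOn (fun x => 2 * √x) S := by
      intro x hx y hy hxy
      simp only at hxy
      have h4 : √x = √y := by linarith
      rw [← (hxS x hx).2.2.1, ← (hxS y hy).2.2.1, h4]
    have hTr : ∀ t ∈ T, X ≤ t ∧ t ≤ X + H := by
      intro t ht
      rw [hT, mem_image] at ht
      obtain ⟨x, hx, rfl⟩ := ht
      obtain ⟨g1, g2, g3, g4⟩ := hxS x hx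
      obtain ⟨g5, g6⟩ := hS x hx
      constructor
      · rw [hX]; linarith
      · -- 2√x ≤ 2 s + K / s
        have h5 : 2 * s * (√x - s) ≤ K := by nlinarith [sq_nonneg (√x - s)]
        have h6 : 2 * (√x - s) ≤ H := by
          rw [hH, le_div_iff₀ hs0]; linarith
        rw [hX]; linarith
    have hTsep : Sep (δ / 2) T := by
      intro t ht u hu htu
      rw [hT, mem_image] at ht hu
      obtain ⟨x, hx, rfl⟩ := ht
      obtain ⟨y, hy, rfl⟩ := hu
      have hxy : x ≠ y := fun h => htu (by rw [h])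
      have h5 := hsep x hx y hy hxy
      obtain ⟨x1, x2, x3, x4⟩ := hxS x hx
      obtain ⟨y1, y2, y3, y4⟩ := hxS y hy
      have h6 : |x - y| = |√x - √y| * (√x + √y) := by
        have : x - y = (√x - √y) * (√x + √y) := by nlinarith
        rw [this, abs_mul, abs_of_nonneg (show 0 ≤ √x + √y by positivity)]
      rw [h6] at h5
      have h7 : |√x - √y| * (√x + √y) ≤ |√x - √y| * (3 * s) := mul_le_mul_of_nonneg_left (by linarith) (abs_nonneg _)
      have h8 : δ * s ≤ (3 * |√x - √y|) * s := by linarith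
      have h9 : δ ≤ 3 * |√x - √y| := le_of_mul_le_mul_right h8 hs0
      have h10 : |2 * √x - 2 * √y| = 2 * |√x - √y| := by
        rw [← mul_sub, abs_mul, abs_of_pos (by norm_num : (0:ℝ) < 2)]
      rw [h10]
      linarith
    have hXp : ∀ r : ℝ, 0 ≤ r → r ≤ 2 → X ^ r ≤ 4 * Y ^ (r / 2) := by
      intro r hr0 hr2
      rw [hX, Real.mul_rpow (by norm_num) hs0.le]
      have e : s ^ r = Y ^ (r / 2) := by
        rw [hs, Real.sqrt_eq_rpow, ← Real.rpow_mul hY0.le]; congr 1; ring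
      rw [e]
      apply mul_le_mul_of_nonneg_right _ (by positivity)
      calc (2:ℝ) ^ r ≤ 2 ^ (2:ℝ) := Real.rpow_le_rpow_of_exponent_le (by norm_num) hr2
        _ = 4 := by norm_num
    have hXε : X ^ ε ≤ 2 ^ ε * Y ^ ε := by
      rw [hX, Real.mul_rpow (by norm_num) hs0.le]
      apply mul_le_mul_of_nonneg_left _ (by positivity)
      apply Real.rpow_le_rpow hs0.le _ hε.le
      nlinarith
    constructor
    · intro V hV hVS
      have hV0 : 0 < V := by linarith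
      have key := h1 X H (δ / 2) V T hX4 hH0 hHX hδ' hδ'1 hV (fun t ht => ⟨hTr t ht, by
        rw [hT, mem_image] at ht
        obtain ⟨x, hx, rfl⟩ := ht
        have hx0 := (hxS x hx).1
        have hs : 0 < x ^ (1/4:ℝ) := by positivity
        have h4 := hVS x hx
        rw [habs x hx0, mul_comm V] at h4
        exact le_of_mul_le_mul_left h4 hs⟩) hTsep
      rw [hT, card_image_of_injOn hinj] at key
      refine key.trans ?_
      have hG : H / V^6 + H / (V^8 * (δ / 2)) + X ^ (1/2:ℝ) / V^3 + 1 / (V^2 * (δ / 2)) ≤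
          4 * (K / (s * V^6) + K / (s * V^8 * δ) + Y ^ (1/4:ℝ) / V^3 + 1 / (V^2 * δ)) := by
        have e1 : H / V^6 = K / (s * V^6) := by rw [hH]; field_simp
        have e2 : H / (V^8 * (δ / 2)) = 2 * (K / (s * V^8 * δ)) := by rw [hH]; field_simp
        have e3 : X ^ (1/2:ℝ) / V^3 ≤ 4 * (Y ^ (1/4:ℝ) / V^3) := by
          have := hXp (1/2) (by norm_num) (by norm_num)
          rw [show (1/2:ℝ)/2 = 1/4 by norm_num] at this
          calc X ^ (1/2:ℝ) / V^3 ≤ (4 * Y ^ (1/4:ℝ)) / V^3 := by gcongr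
            _ = _ := by ring
        have e4 : 1 / (V^2 * (δ / 2)) = 2 * (1 / (V^2 * δ)) := by field_simp
        have p1 : 0 ≤ K / (s * V^6) := by positivity
        have p2 : 0 ≤ K / (s * V^8 * δ) := by positivity
        have p3 : 0 ≤ 1 / (V^2 * δ) := by positivity
        rw [e1, e2, e4]
        linarith
      have hG0 : 0 ≤ K / (s * V^6) + K / (s * V^8 * δ) + Y ^ (1/4:ℝ) / V^3 + 1 / (V^2 * δ) := by positivity
      calc C1 * X ^ ε * (H / V^6 + H / (V^8 * (δ / 2)) + X ^ (1/2:ℝ) / V^3 + 1 / (V^2 * (δ / 2)))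
          ≤ C1 * (2 ^ ε * Y ^ ε) * (4 * (K / (s * V^6) + K / (s * V^8 * δ) + Y ^ (1/4:ℝ) / V^3 + 1 / (V^2 * δ))) := by gcongr
        _ = (4 * 2 ^ ε * C1) * Y ^ ε * (K / (s * V^6) + K / (s * V^8 * δ) + Y ^ (1/4:ℝ) / V^3 + 1 / (V^2 * δ)) := by ring
        _ ≤ _ := by
            apply mul_le_mul_of_nonneg_right _ hG0
            apply mul_le_mul_of_nonneg_right _ (by positivity)
            have : 0 ≤ 64 * 2 ^ ε * C2 + 16 * C3 := by positivity
            linarith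
    · intro p hp0 hp8
      have key := h2 X H (δ / 2) p T hX4 hH0 hHX hδ' hδ'1 hp0 hp8 hTr hTsep
      rw [hT, sum_image hinj] at key
      set G : ℝ := K / (s * δ) + K / s * Y ^ (max 0 ((p - 6) / 12)) + Y ^ (max (1/4) (p / 12)) + Y ^ (max 0 ((p - 2) / 12)) / δ with hG
      have hG0 : 0 ≤ G := by positivity
      have hmx : ∀ u v : ℝ, (max u v) / 2 = max (u / 2) (v / 2) := fun u v => (max_div_div_right (by norm_num) u v).symm
      have hR : Rhs p X H (δ / 2) ≤ 8 * G := by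
        unfold Rhs
        have e1 : H / (δ / 2) = 2 * (K / (s * δ)) := by rw [hH]; field_simp
        have m1 : max 0 ((p - 6) / 6) ≤ 2 := max_le (by norm_num) (by linarith)
        have m2 : max (1/2) (p / 6) ≤ 2 := max_le (by norm_num) (by linarith)
        have m3 : max 0 ((p - 2) / 6) ≤ 2 := max_le (by norm_num) (by linarith)
        have m20 : 0 ≤ max (1/2) (p / 6) := le_trans (by norm_num) (le_max_left _ _)
        have e2 := hXp _ (le_max_left 0 ((p - 6) / 6)) m1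
        have e3 := hXp _ m20 m2
        have e4 := hXp _ (le_max_left 0 ((p - 2) / 6)) m3
        rw [hmx, zero_div, show (p - 6) / 6 / 2 = (p - 6) / 12 by ring] at e2
        rw [hmx, show (1/2:ℝ) / 2 = 1/4 by norm_num, show p / 6 / 2 = p / 12 by ring] at e3
        rw [hmx, zero_div, show (p - 2) / 6 / 2 = (p - 2) / 12 by ring] at e4
        have f2 : H * X ^ (max 0 ((p - 6) / 6)) ≤ 4 * (K / s * Y ^ (max 0 ((p - 6) / 12))) := by
          calc H * X ^ (max 0 ((p - 6) / 6)) ≤ H * (4 * Y ^ (max 0 ((p - 6) / 12))) := by gcongr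
            _ = _ := by rw [hH]; ring
        have f4 : X ^ (max 0 ((p - 2) / 6)) / (δ / 2) ≤ 8 * (Y ^ (max 0 ((p - 2) / 12)) / δ) := by
          calc X ^ (max 0 ((p - 2) / 6)) / (δ / 2) ≤ (4 * Y ^ (max 0 ((p - 2) / 12))) / (δ / 2) := by gcongr
            _ = _ := by field_simp; ring
        have p1 : 0 ≤ K / (s * δ) := by positivity
        have p2 : 0 ≤ K / s * Y ^ (max 0 ((p - 6) / 12)) := by positivity
        have p3 : 0 ≤ Y ^ (max (1/4) (p / 12)) := by positivity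
        rw [e1, hG]
        linarith
      have hR0 : 0 ≤ Rhs p X H (δ / 2) := by unfold Rhs; positivity
      calc ∑ x ∈ S, |Dx x| ^ p ≤ ∑ x ∈ S, 8 * Y ^ (p / 4) * |E2 (2 * √x)| ^ p := by
            apply sum_le_sum
            intro x hx
            obtain ⟨g1, g2⟩ := hS x hx
            have hx0 := (hxS x hx).1
            rw [habs x hx0, Real.mul_rpow (by positivity) (abs_nonneg _)]
            apply mul_le_mul_of_nonneg_right _ (by positivity)
            rw [← Real.rpow_mul hx0.le, show (1/4:ℝ) * p = p / 4 by ring]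
            calc x ^ (p / 4) ≤ (2 * Y) ^ (p / 4) := Real.rpow_le_rpow hx0.le (by linarith) (by positivity)
              _ = 2 ^ (p / 4) * Y ^ (p / 4) := Real.mul_rpow (by norm_num) hY0.le
              _ ≤ 8 * Y ^ (p / 4) := by
                  apply mul_le_mul_of_nonneg_right _ (by positivity)
                  calc (2:ℝ) ^ (p / 4) ≤ 2 ^ (3:ℝ) := Real.rpow_le_rpow_of_exponent_le (by norm_num) (by linarith)
                    _ = 8 := by norm_num
        _ = 8 * Y ^ (p / 4) * ∑ x ∈ S, |E2 (2 * √x)| ^ p := by rw [mul_sum]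
        _ ≤ 8 * Y ^ (p / 4) * (C2 * (2 ^ ε * Y ^ ε) * (8 * G)) := by
            apply mul_le_mul_of_nonneg_left _ (by positivity)
            refine key.trans ?_
            gcongr
        _ = (64 * 2 ^ ε * C2) * (Y ^ (p / 4) * Y ^ ε) * G := by ring
        _ = (64 * 2 ^ ε * C2) * Y ^ (p / 4 + ε) * G := by rw [← Real.rpow_add hY0]
        _ ≤ _ := by
            apply mul_le_mul_of_nonneg_right _ hG0
            apply mul_le_mul_of_nonneg_right _ (by positivity)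
            have : 0 ≤ 4 * 2 ^ ε * C1 + 16 * C3 := by positivity
            linarith
  · intro m N p ξ hm hNm hp0 hp6 hξ
    have hτ : ∀ n : ℕ, (n:ℝ) ≤ √(ξ n) ∧ √(ξ n) ≤ n + 1 := by
      intro n
      have hn : (0:ℝ) ≤ n := Nat.cast_nonneg n
      exact ⟨Real.le_sqrt_of_sq_le (hξ n).1, Real.sqrt_le_iff.mpr ⟨by positivity, (hξ n).2⟩⟩
    have key := h3 m N p (fun n => √(ξ n)) hm hNm hp0 hp6 hτ
    have hm4 : (4:ℝ) ≤ m := by exact_mod_cast hm
    have hm0 : (0:ℝ) < m := by linarith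
    have hN0 : (0:ℝ) ≤ N := Nat.cast_nonneg N
    have hNm' : (N:ℝ) ≤ m := by exact_mod_cast hNm
    have hR0 : 0 ≤ (N:ℝ) + (m:ℝ) ^ (max (1/2) (p / 6)) := by positivity
    calc ∑ n ∈ Ico m (m + N), |Dx (ξ n)| ^ p ≤ ∑ n ∈ Ico m (m + N), 16 * (m:ℝ) ^ (p / 2) * |E2 (2 * √(ξ n))| ^ p := by
          apply sum_le_sum
          intro n hn
          rw [mem_Ico] at hn
          have g1 : (m:ℝ) ≤ n := by exact_mod_cast hn.1
          have g2 : (n:ℝ) + 1 ≤ m + N := by exact_mod_cast hn.2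
          obtain ⟨g3, g4⟩ := hτ n
          have ht0 : 0 < √(ξ n) := by linarith
          have hx0 : 0 < ξ n := Real.sqrt_pos.mp ht0
          rw [habs _ hx0, Real.mul_rpow (by positivity) (abs_nonneg _)]
          apply mul_le_mul_of_nonneg_right _ (by positivity)
          have e : (ξ n) ^ (1/4:ℝ) = √(√(ξ n)) := by
            rw [Real.sqrt_eq_rpow, Real.sqrt_eq_rpow, ← Real.rpow_mul hx0.le]; norm_num
          rw [e]
          exact sqrt_rpow_le hm0 ht0.le (by linarith) hp0 (by linarith)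
      _ = 16 * (m:ℝ) ^ (p / 2) * ∑ n ∈ Ico m (m + N), |E2 (2 * √(ξ n))| ^ p := by rw [mul_sum]
      _ ≤ 16 * (m:ℝ) ^ (p / 2) * (C3 * (m:ℝ) ^ ε * (N + (m:ℝ) ^ (max (1/2) (p / 6)))) := by gcongr
      _ = (16 * C3) * ((m:ℝ) ^ (p / 2) * (m:ℝ) ^ ε) * (N + (m:ℝ) ^ (max (1/2) (p / 6))) := by ring
      _ = (16 * C3) * (m:ℝ) ^ (p / 2 + ε) * (N + (m:ℝ) ^ (max (1/2) (p / 6))) := by rw [← Real.rpow_add hm0]
      _ ≤ _ := by
          apply mul_le_mul_of_nonneg_right _ hR0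
          apply mul_le_mul_of_nonneg_right _ (by positivity)
          have : 0 ≤ 4 * 2 ^ ε * C1 + 64 * 2 ^ ε * C2 := by positivity
          linarith

end Pool.Agent.NH14.SM
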